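import Pool.Agent.Helper39.Trans.Goals

/-!
# Linear algebra at a point
-/

set_option linter.unusedSectionVars false

namespace Pool.Agent.Helper39.Trans

open Finset Classical Matrix

namespace Sys

variable {n : ℕ} {ι Λ κ : Type} [Fintype ι] [Fintype Λ] [Fintype κ] (A : Sys n ι Λ κ)

theorem mem_fib {l : Λ} {v : ι} : v ∈ A.fib l ↔ A.grp v = l := by simp [fib]

theorem mem_W {l : Λ} {v : ι} {q : Fin n → ℝ} :
    v ∈ A.W l q ↔ A.grp v = l ∧ ∀ w, A.grp w = l → A.h v q ≤ A.h w q := by
  simp [W, mem_fib]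

theorem W_subset_fib (l : Λ) (q : Fin n → ℝ) : A.W l q ⊆ A.fib l := filter_subset _ _

theorem W_nonempty (hF : A.Full) (l : Λ) (q : Fin n → ℝ) : (A.W l q).Nonempty := by
  obtain ⟨v, hv⟩ := hF l
  have hne : (A.fib l).Nonempty := ⟨v, A.mem_fib.2 hv⟩
  obtain ⟨u, hu, hmin⟩ := exists_min_image (A.fib l) (fun v => A.h v q) hne
  exact ⟨u, mem_filter.2 ⟨hu, hmin⟩⟩

theorem W_card_pos (hF : A.Full) (l : Λ) (q : Fin n → ℝ) : 0 < (A.W l q).card :=
  card_pos.2 (A.W_nonempty hF l q)

theorem h_eq_of_mem_W {l : Λ} {v w : ι} {q : Fin n → ℝ} (hv : v ∈ A.W l q) (hw : w ∈ A.W l q) :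
    A.h v q = A.h w q :=
  le_antisymm ((A.mem_W.1 hv).2 w (A.mem_W.1 hw).1) ((A.mem_W.1 hw).2 v (A.mem_W.1 hv).1)

theorem h_eq_zero_of_act {l : Λ} {v : ι} {q : Fin n → ℝ} (hl : A.Act l q) (hv : v ∈ A.W l q) :
    A.h v q = 0 := by
  obtain ⟨w, hw, h0⟩ := hl
  rw [A.h_eq_of_mem_W hv hw, h0]

theorem act_iff {l : Λ} {v : ι} {q : Fin n → ℝ} (hv : v ∈ A.W l q) :
    A.Act l q ↔ A.h v q = 0 :=
  ⟨fun h => A.h_eq_zero_of_act h hv, fun h => ⟨v, hv, h⟩⟩

theorem in_iff {l : Λ} {v : ι} {q : Fin n → ℝ} (hv : v ∈ A.W l q) :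
    A.In l q ↔ 0 < A.h v q :=
  ⟨fun h => h v (A.W_subset_fib l q hv), fun h w hw =>
    lt_of_lt_of_le h ((A.mem_W.1 hv).2 w (A.mem_fib.1 hw))⟩

theorem h_add (v : ι) (q d : Fin n → ℝ) (s : ℝ) :
    A.h v (q + s • d) = A.h v q + s * (A.a v ⬝ᵥ d) := by
  simp only [h, dotProduct_add, dotProduct_smul, smul_eq_mul]
  ring

theorem bx_add (k : κ) (q d : Fin n → ℝ) (s : ℝ) :
    A.bx k (q + s • d) = A.bx k q + s * (A.ba k ⬝ᵥ d) := by
  simp only [bx, dotProduct_add, dotProduct_smul, smul_eq_mul]
  ring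

/-- The data of the linear map of the tight constraints at `q`. -/
theorem exists_map (hF : A.Full) (hG : A.GP) (S : Finset Λ) (q : Fin n → ℝ) (hq : A.Box q) :
    ∃ (X : Type) (_ : Fintype X) (L : (Fin n → ℝ) →ₗ[ℝ] (X → ℝ)),
      Fintype.card X = A.cnt S q ∧ Function.Surjective L ∧ (∀ d, A.Ker S q d ↔ L d = 0) ∧
      (∀ (ρ : ι → ℝ) (τ : κ → ℝ), ∃ y : X → ℝ, ∀ d, L d = y →
        (∀ l ∈ S, ∀ v ∈ A.W l q, ∀ w ∈ A.W l q, A.a v ⬝ᵥ d - A.a w ⬝ᵥ d = ρ v - ρ w) ∧
        (∀ l ∈ S, A.Act l q → ∀ v ∈ A.W l q, A.a v ⬝ᵥ d = ρ v) ∧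
        (∀ k ∈ A.Bt q, A.ba k ⬝ᵥ d = τ k)) := by
  choose r hr using fun l => A.W_nonempty hF l q
  have hrg : ∀ l, A.grp (r l) = l := fun l => (A.mem_W.1 (hr l)).1
  let XV : Finset ι := S.biUnion fun l => (A.W l q).filter fun v => v ≠ r l ∨ A.Act l q
  have hXV : ∀ v, v ∈ XV ↔ A.grp v ∈ S ∧ v ∈ A.W (A.grp v) q ∧
      (v ≠ r (A.grp v) ∨ A.Act (A.grp v) q) := by
    intro v
    simp only [XV, mem_biUnion, mem_filter]
    constructor
    · rintro ⟨l, hl, hv, h⟩
      have : A.grp v = l := (A.mem_W.1 hv).1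
      subst this
      exact ⟨hl, hv, h⟩
    · rintro ⟨hl, hv, h⟩
      exact ⟨_, hl, hv, h⟩
  let X : Type := {v // v ∈ XV} ⊕ {k // k ∈ A.Bt q}
  let vec : X → Fin n → ℝ := Sum.elim
    (fun v => if v.1 = r (A.grp v.1) then A.a v.1 else A.a v.1 - A.a (r (A.grp v.1)))
    (fun k => A.ba k.1)
  have hcard : Fintype.card X = A.cnt S q := by
    have h1 : XV.card = ∑ l ∈ S, ((A.W l q).filter fun v => v ≠ r l ∨ A.Act l q).card := by
      refine card_biUnion fun l _ l' _ hll' => ?_
      rw [Function.onFun, disjoint_left]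
      intro v hv hv'
      have e1 := (A.mem_W.1 (mem_filter.1 hv).1).1
      have e2 := (A.mem_W.1 (mem_filter.1 hv').1).1
      exact hll' (e1.symm.trans e2)
    have h2 : ∀ l ∈ S, ((A.W l q).filter fun v => v ≠ r l ∨ A.Act l q).card =
        ((A.W l q).card - 1) + if A.Act l q then 1 else 0 := by
      intro l _
      by_cases hl : A.Act l q
      · rw [filter_true_of_mem (fun v _ => Or.inr hl), if_pos hl]
        have := A.W_card_pos hF l q
        omega
      · rw [if_neg hl]
        have : (A.W l q).filter (fun v => v ≠ r l ∨ A.Act l q) = (A.W l q).erase (r l) := by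
          ext v
          simp [hl, and_comm]
        rw [this, card_erase_of_mem (hr l)]
        omega
    have h3 : Fintype.card X = XV.card + (A.Bt q).card := by
      simp only [X, Fintype.card_sum, Fintype.card_coe]
    rw [h3, h1, sum_congr rfl h2, sum_add_distrib, cnt, card_filter]
  have hli : LinearIndependent ℝ vec := by
    rw [Fintype.linearIndependent_iff]
    intro g hg
    -- extend the coefficients
    let c : ι → ℝ := fun v => if hv : v ∈ XV then g (Sum.inl ⟨v, hv⟩) else 0
    let mu : κ → ℝ := fun k => if hk : k ∈ A.Bt q then g (Sum.inr ⟨k, hk⟩) else 0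
    let lam : ι → ℝ := fun v => c v -
      if v = r (A.grp v) then ∑ w ∈ (A.fib (A.grp v)).erase v, c w else 0
    have hc0 : ∀ v, c v ≠ 0 → v ∈ A.W (A.grp v) q := by
      intro v hv
      by_contra h
      apply hv
      have : v ∉ XV := fun h' => h ((hXV v).1 h').2.1
      simp [c, this]
    have key := hG q hq lam mu ?_ ?_ ?_ ?_
    · obtain ⟨k1, k2⟩ := key
      have hcz : ∀ v, v ≠ r (A.grp v) → c v = 0 := by
        intro v hv
        have := congrFun k1 v
        simpa [lam, hv] using this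
      rintro (⟨v, hv⟩ | ⟨k, hk⟩)
      · have : c v = 0 := by
          by_cases hvr : v = r (A.grp v)
          · have h1 := congrFun k1 v
            have h2 : ∑ w ∈ (A.fib (A.grp v)).erase v, c w = 0 := by
              refine sum_eq_zero fun w hw => hcz w ?_
              intro h
              have hw' := mem_erase.1 hw
              apply hw'.1
              rw [h, A.mem_fib.1 hw'.2, ← hvr]
            simp only [lam, if_pos hvr, h2, Pi.zero_apply, sub_zero] at h1
            exact h1
          · exact hcz v hvr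
        simpa [c, hv] using this
      · have := congrFun k2 k
        simpa [mu, hk] using this
    · intro v hv
      by_cases h : v = r (A.grp v)
      · rw [h, hrg]; exact hr _
      · refine hc0 v ?_
        intro h'
        apply hv
        simp [lam, h, h']
    · intro k hk
      by_contra h
      apply hk
      simp [mu, h]
    · intro l hl
      have hsplit : ∑ v ∈ A.fib l, lam v = ∑ v ∈ A.fib l, c v -
          ∑ v ∈ A.fib l, (if v = r (A.grp v) then ∑ w ∈ (A.fib (A.grp v)).erase v, c w else 0) := by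
        rw [← sum_sub_distrib]
      have h1 : ∑ v ∈ A.fib l,
          (if v = r (A.grp v) then ∑ w ∈ (A.fib (A.grp v)).erase v, c w else 0) =
          ∑ w ∈ (A.fib l).erase (r l), c w := by
        rw [sum_eq_single (r l)]
        · rw [hrg, if_pos rfl]
        · intro v hv hvr
          rw [A.mem_fib.1 hv, if_neg hvr]
        · intro h
          exact absurd (A.mem_fib.2 (hrg l)) h
      have h2 : ∑ v ∈ A.fib l, c v = c (r l) + ∑ w ∈ (A.fib l).erase (r l), c w :=
        (add_sum_erase _ _ (A.mem_fib.2 (hrg l))).symm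
      have h3 : c (r l) = 0 := by
        have : r l ∉ XV := by
          intro h
          rcases ((hXV _).1 h).2.2 with h' | h'
          · exact h' (by rw [hrg])
          · rw [hrg] at h'
            exact hl h'
        simp [c, this]
      rw [hsplit, h1, h2, h3]
      ring
    · -- the linear combination
      have h1 : ∑ v, lam v • A.a v = ∑ v : {v // v ∈ XV}, g (Sum.inl v) • vec (Sum.inl v) := by
        have e1 : ∑ v : {v // v ∈ XV}, g (Sum.inl v) • vec (Sum.inl v) =
            ∑ v ∈ XV, c v • (if v = r (A.grp v) then A.a v else A.a v - A.a (r (A.grp v))) := by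
          rw [← sum_coe_sort XV]
          refine sum_congr rfl fun v _ => ?_
          simp only [c, vec, Sum.elim_inl, v.2, dif_pos]
        have e2 : ∑ v ∈ XV, c v • (if v = r (A.grp v) then A.a v else A.a v - A.a (r (A.grp v))) =
            ∑ v, c v • (if v = r (A.grp v) then A.a v else A.a v - A.a (r (A.grp v))) := by
          refine sum_subset (subset_univ _) fun v _ hv => ?_
          simp [c, hv]
        have e3 : ∀ v, c v • (if v = r (A.grp v) then A.a v else A.a v - A.a (r (A.grp v))) =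
            c v • A.a v - (if v = r (A.grp v) then 0 else c v • A.a (r (A.grp v))) := by
          intro v
          split_ifs <;> simp [smul_sub]
        have e4 : ∑ v, lam v • A.a v = ∑ v, c v • A.a v - ∑ v,
            (if v = r (A.grp v) then (∑ w ∈ (A.fib (A.grp v)).erase v, c w) • A.a v else 0) := by
          rw [← sum_sub_distrib]
          refine sum_congr rfl fun v _ => ?_
          simp only [lam, sub_smul]
          split_ifs <;> simp
        rw [e1, e2, sum_congr rfl fun v _ => e3 v, sum_sub_distrib, e4]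
        congr 1
        -- both sides are the sum over the groups
        have f1 : ∀ F : ι → (Fin n → ℝ), ∑ v, F v = ∑ l, ∑ v ∈ A.fib l, F v := by
          intro F
          rw [← sum_fiberwise univ A.grp F]
          rfl
        rw [f1, f1]
        refine sum_congr rfl fun l _ => ?_
        rw [sum_eq_single (r l)]
        · rw [hrg, if_pos rfl]
          rw [sum_smul]
          rw [← add_sum_erase _ _ (A.mem_fib.2 (hrg l))]
          rw [hrg, if_pos rfl, zero_add]
          refine sum_congr rfl fun w hw => ?_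
          have hw' := mem_erase.1 hw
          rw [A.mem_fib.1 hw'.2, if_neg hw'.1]
        · intro v hv hvr
          rw [A.mem_fib.1 hv, if_neg hvr]
        · intro h
          exact absurd (A.mem_fib.2 (hrg l)) h
      have h2 : ∑ k, mu k • A.ba k = ∑ k : {k // k ∈ A.Bt q}, g (Sum.inr k) • vec (Sum.inr k) := by
        have e1 : ∑ k : {k // k ∈ A.Bt q}, g (Sum.inr k) • vec (Sum.inr k) =
            ∑ k ∈ A.Bt q, mu k • A.ba k := by
          rw [← sum_coe_sort (A.Bt q)]
          refine sum_congr rfl fun k _ => ?_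
          simp only [mu, vec, Sum.elim_inr, k.2, dif_pos]
        rw [e1]
        exact (sum_subset (subset_univ _) fun k _ hk => by simp [mu, hk]).symm
      rw [h1, h2]
      exact (Fintype.sum_sum_type (fun x => g x • vec x)).symm.trans hg
  let M : Matrix X (Fin n) ℝ := Matrix.of vec
  have hrank : M.rank = Fintype.card X := hli.rank_matrix
  have hsurj : Function.Surjective M.mulVecLin := by
    rw [← LinearMap.range_eq_top]
    apply Submodule.eq_top_of_finrank_eq
    rw [Module.finrank_pi]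
    exact hrank
  have hrow : ∀ d x, M.mulVecLin d x = vec x ⬝ᵥ d := fun d x => rfl
  refine ⟨X, inferInstance, M.mulVecLin, hcard, hsurj, ?_, ?_⟩
  · intro d
    constructor
    · rintro ⟨h1, h2, h3⟩
      funext x
      rw [hrow]
      rcases x with ⟨v, hv⟩ | ⟨k, hk⟩
      · have hv' := (hXV v).1 hv
        simp only [vec, Sum.elim_inl, Pi.zero_apply]
        split_ifs with hvr
        · rcases hv'.2.2 with h | h
          · exact absurd hvr h
          · exact h2 _ hv'.1 h v hv'.2.1
        · rw [sub_dotProduct, h1 _ hv'.1 v hv'.2.1 _ (hr _), sub_self]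
      · exact h3 k hk
    · intro h0
      have hx : ∀ x, vec x ⬝ᵥ d = 0 := fun x => by rw [← hrow, h0]; rfl
      have hv : ∀ l ∈ S, ∀ v ∈ A.W l q, A.a v ⬝ᵥ d = A.a (r l) ⬝ᵥ d := by
        intro l hl v hv
        by_cases hvr : v = r l
        · rw [hvr]
        · have hvl : A.grp v = l := (A.mem_W.1 hv).1
          have hvX : v ∈ XV := (hXV v).2 (by rw [hvl]; exact ⟨hl, hv, Or.inl hvr⟩)
          have := hx (Sum.inl ⟨v, hvX⟩)
          simp only [vec, Sum.elim_inl, hvl, if_neg hvr, sub_dotProduct] at this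
          linarith
      refine ⟨fun l hl v hv' w hw => (hv l hl v hv').trans (hv l hl w hw).symm, ?_, ?_⟩
      · intro l hl hact v hv'
        rw [hv l hl v hv']
        have hX : r l ∈ XV := (hXV _).2 (by rw [hrg]; exact ⟨hl, hr l, Or.inr hact⟩)
        have := hx (Sum.inl ⟨r l, hX⟩)
        simpa only [vec, Sum.elim_inl, hrg, if_true] using this
      · intro k hk
        exact hx (Sum.inr ⟨k, hk⟩)
  · intro ρ τ
    refine ⟨Sum.elim (fun v => if v.1 = r (A.grp v.1) then ρ v.1 else ρ v.1 - ρ (r (A.grp v.1)))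
      (fun k => τ k.1), fun d hd => ?_⟩
    have hx : ∀ x, vec x ⬝ᵥ d = Sum.elim
        (fun v : {v // v ∈ XV} => if v.1 = r (A.grp v.1) then ρ v.1 else ρ v.1 - ρ (r (A.grp v.1)))
        (fun k : {k // k ∈ A.Bt q} => τ k.1) x := fun x => by rw [← hrow, hd]
    have hv : ∀ l ∈ S, ∀ v ∈ A.W l q, A.a v ⬝ᵥ d - A.a (r l) ⬝ᵥ d = ρ v - ρ (r l) := by
      intro l hl v hv
      by_cases hvr : v = r l
      · rw [hvr]; ring
      · have hvl : A.grp v = l := (A.mem_W.1 hv).1
        have hvX : v ∈ XV := (hXV v).2 (by rw [hvl]; exact ⟨hl, hv, Or.inl hvr⟩)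
        have := hx (Sum.inl ⟨v, hvX⟩)
        simp only [vec, Sum.elim_inl, hvl, if_neg hvr, sub_dotProduct] at this
        exact this
    refine ⟨fun l hl v hv' w hw => ?_, ?_, ?_⟩
    · linarith [hv l hl v hv', hv l hl w hw]
    · intro l hl hact v hv'
      have hX : r l ∈ XV := (hXV _).2 (by rw [hrg]; exact ⟨hl, hr l, Or.inr hact⟩)
      have h1 := hx (Sum.inl ⟨r l, hX⟩)
      simp only [vec, Sum.elim_inl, hrg, if_true] at h1
      linarith [hv l hl v hv']
    · intro k hk
      exact hx (Sum.inr ⟨k, hk⟩)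

end Sys

theorem linFacts (n : ℕ) (κ : Type) [Fintype κ] : LinFacts n κ := by
  intro ι Λ _ _ A hF hG S q hq
  obtain ⟨X, _, L, hc, hs, hk, hp⟩ := A.exists_map hF hG S q hq
  have hrange : Module.finrank ℝ (LinearMap.range L) = A.cnt S q := by
    rw [LinearMap.range_eq_top.2 hs, finrank_top, Module.finrank_pi, hc]
  have hsum := LinearMap.finrank_range_add_finrank_ker L
  rw [hrange, Module.finrank_pi, Fintype.card_fin] at hsum
  refine ⟨by omega, ?_, ?_, ?_, ?_⟩
  · intro h d hd
    have h0 : Module.finrank ℝ (LinearMap.ker L) = 0 := by omega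
    have : LinearMap.ker L = ⊥ := Submodule.finrank_eq_zero.1 h0
    have hd' : d ∈ LinearMap.ker L := (hk d).1 hd
    rw [this] at hd'
    exact hd'
  · intro h
    have : LinearMap.ker L = ⊥ := by
      rw [Submodule.eq_bot_iff]
      exact fun d hd => h d ((hk d).2 hd)
    rw [this, finrank_bot] at hsum
    omega
  · intro ρ τ
    obtain ⟨y, hy⟩ := hp ρ τ
    obtain ⟨d, hd⟩ := hs y
    exact ⟨d, hy d hd⟩
  · intro h
    have h1 : Module.finrank ℝ (LinearMap.ker L) = 1 := by omega
    obtain ⟨⟨d, hd⟩, hd0, hd1⟩ := finrank_eq_one_iff'.1 h1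
    refine ⟨d, fun h => hd0 (by ext1; exact h), (hk d).2 hd, fun d' hd' => ?_⟩
    obtain ⟨c, hc⟩ := hd1 ⟨d', (hk d').1 hd'⟩
    exact ⟨c, (congrArg Subtype.val hc).symm⟩

end Pool.Agent.Helper39.Trans
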