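import Pool.Agent.Helper39.Trans.PureV

/-!
# The geometric core of the gain inequality
-/

set_option linter.unusedSectionVars false

namespace Pool.Agent.Helper39.Trans

open Finset Classical Matrix

namespace Sys

variable {n : ℕ} {ι Λ κ : Type} [Fintype ι] [Fintype Λ] [Fintype κ] {A : Sys n ι Λ κ}

theorem conf_end {e : ℕ} {G S : Finset Λ} {z y : Fin n → ℝ} {l : Λ} {σ : ℝ} (hF : A.Full)
    (_hz : PV e G S z A) (h0 : Disjoint (A.conf z) S)
    (h : Drop (G ∪ S) z y l σ A) : A.conf y ∩ S ⊆ {l} := by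
  intro l' hl'
  rw [mem_inter, mem_conf, mem_Dg, not_or] at hl'
  obtain ⟨⟨⟨h1, h2⟩, h3⟩, h4⟩ := hl'
  rw [mem_singleton]
  by_contra hne
  obtain ⟨e1, e2, e3, e4⟩ := h.end hF l' (mem_union_right _ h4)
  have h5 : l' ∈ A.conf z := by
    rw [mem_conf, mem_Dg, not_or]
    refine ⟨⟨fun h' => h1 (e2 hne h'), fun h' => h2 (h'.trans (card_le_card e1))⟩, e4 hne h3⟩
  exact (disjoint_left.1 h0) h5 h4

theorem In_of_pos {l : Λ} {z : Fin n → ℝ} {v : ι} (hv : v ∈ A.W l z) (h : 0 < A.h v z) :
    A.In l z := (A.in_iff hv).2 h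

/-- An inward edge between pure vertices. -/
structure Inw (e : ℕ) (G S : Finset Λ) (z y : Fin n → ℝ) (l p : Λ) (A : Sys n ι Λ κ) : Prop where
  drop : Drop (G ∪ S) z y l 1 A
  pz : PV e G S z A
  lev : Disjoint (A.conf z) S
  py : PV e G S y A
  act : A.Act l z
  np : p ∉ A.Dg z
  pS : p ∈ S
  igy : A.Ig y = insert p ((A.Ig z).erase l)
  jgy : A.Jg y = A.Jg z

theorem Inw.lF {e : ℕ} {G S : Finset Λ} {z y : Fin n → ℝ} {l p : Λ} (h : Inw e G S z y l p A) :
    l ∈ S := h.pz.ig (A.mem_Ig.2 h.act)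

theorem Inw.conf {e : ℕ} {G S : Finset Λ} {z y : Fin n → ℝ} {l p : Λ} (hF : A.Full)
    (h : Inw e G S z y l p A) : A.conf y ∩ S = {l} := by
  apply Subset.antisymm (conf_end hF h.pz h.lev h.drop)
  rw [singleton_subset_iff, mem_inter, mem_conf]
  refine ⟨⟨?_, ?_⟩, h.lF⟩
  · rw [Dg, mem_union, not_or, h.igy, h.jgy]
    refine ⟨fun h' => ?_, fun h' => h.pz.dis l h' h.act⟩
    rcases mem_insert.1 h' with h' | h'
    · subst h'
      exact h.np (mem_union_left _ (A.mem_Ig.2 h.act))
    · exact (mem_erase.1 h').1 rfl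
  · obtain ⟨v, hv⟩ := A.W_nonempty hF l z
    have := h.drop.h_end h.act hv
    rw [one_mul] at this
    exact In_of_pos ((h.drop.end hF l (mem_union_right _ h.lF)).1 hv) this

theorem W_eq_of_subset {x y : Fin n → ℝ} {l : Λ} (h : A.W l x ⊆ A.W l y)
    (hc : (A.W l x).card = (A.W l y).card) : A.W l x = A.W l y :=
  eq_of_subset_of_card_le h hc.ge

theorem PV.card_eq {e : ℕ} {G S : Finset Λ} {z y : Fin n → ℝ} (hz : PV e G S z A)
    (hy : PV e G S y A) (hJ : A.Jg y = A.Jg z) (l : Λ) : (A.W l z).card = (A.W l y).card := by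
  by_cases h : l ∈ A.Jg z
  · rw [hz.two l h, hy.two l (by rw [hJ]; exact h)]
  · rw [hz.one l h, hy.one l (by rw [hJ]; exact h)]

theorem Inw.Weq {e : ℕ} {G S : Finset Λ} {z y : Fin n → ℝ} {l p : Λ} (hF : A.Full)
    (h : Inw e G S z y l p A) {l' : Λ} (hl' : l' ∈ G ∪ S) : A.W l' z = A.W l' y :=
  W_eq_of_subset (h.drop.end hF l' hl').1 (h.pz.card_eq h.py h.jgy l')

/-- The state on an inward edge is determined by its end and by the two groups. -/
theorem Inw.state {e : ℕ} {G S : Finset Λ} {z y : Fin n → ℝ} {l p : Λ} (hF : A.Full)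
    (h : Inw e G S z y l p A) :
    (∀ l' ∈ G ∪ S, A.W l' (mid z y) = A.W l' y ∧ (A.Act l' (mid z y) ↔ A.Act l' y ∧ l' ≠ p) ∧
      (A.In l' (mid z y) ↔ l' = l ∨ (l' ∈ A.Jg y ∧ A.In l' y))) ∧ A.Bt (mid z y) = ∅ := by
  refine ⟨fun l' hl' => ⟨?_, ?_, ?_⟩, ?_⟩
  · rw [h.drop.W l' hl', h.Weq hF hl']
  · rw [← A.mem_Ig (q := y), h.igy, mem_insert, mem_erase, mem_Ig]
    by_cases hne : l' = l
    · subst hne
      constructor
      · intro h'
        exact absurd h' (h.drop.not_act_mid hF hl')
      · rintro ⟨h1 | h1, h2⟩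
        · exact absurd h1 h2
        · exact absurd rfl h1.1
    · rw [(h.drop.other l' hl' hne).1]
      constructor
      · intro h'
        refine ⟨Or.inr ⟨hne, h'⟩, ?_⟩
        rintro rfl
        exact h.np (mem_union_left _ (A.mem_Ig.2 h'))
      · rintro ⟨h1 | h1, h2⟩
        · exact absurd h1 h2
        · exact h1.2
  · by_cases hne : l' = l
    · subst hne
      simp only [true_or, iff_true]
      obtain ⟨v, hv⟩ := A.W_nonempty hF l' z
      have := h.drop.self v hv
      rw [one_mul] at this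
      exact In_of_pos (by rw [h.drop.W l' hl']; exact hv) this
    · rw [(h.drop.other l' hl' hne).2]
      simp only [hne, false_or]
      obtain ⟨e1, e2, e3, e4⟩ := h.drop.end hF l' hl'
      constructor
      · intro hin
        have hJ : l' ∈ A.Jg z := by
          by_contra hnJ
          have h1 : ¬ A.Act l' z := fun h' => A.not_In_of_act h' hin
          have h2 : l' ∈ A.conf z := by
            rw [mem_conf, Dg, mem_union, not_or]
            exact ⟨⟨fun h' => h1 (A.mem_Ig.1 h'), hnJ⟩, hin⟩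
          have h3 : l' ∈ S := by
            rcases mem_union.1 hl' with h' | h'
            · exact absurd (h.pz.gj h') hnJ
            · exact h'
          exact (disjoint_left.1 h.lev) h2 h3
        have hJ' : l' ∈ A.Jg y := by rw [h.jgy]; exact hJ
        refine ⟨hJ', ?_⟩
        rcases e3 hne hin with h' | h'
        · exact h'
        · exact absurd h' (h.py.dis l' hJ')
      · rintro ⟨_, h2⟩
        exact e4 hne h2
  · rw [h.drop.Bt, h.pz.bt]

/-- At most one inward edge for every new group. -/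
theorem Inw.inj {e : ℕ} {G S : Finset Λ} {z z' y : Fin n → ℝ} {l l' p : Λ} (hF : A.Full)
    (hG : A.GP) (h : Inw e G S z y l p A) (h' : Inw e G S z' y l' p A) : z = z' ∧ l = l' := by
  have hll : l = l' := by
    have h1 := h.conf hF
    have h2 := h'.conf hF
    rw [h1] at h2
    exact singleton_injective h2
  subst hll
  refine ⟨Edge.unique hF hG h.drop.edge h'.drop.edge ⟨fun l' hl' => ?_, ?_⟩, rfl⟩
  · obtain ⟨a1, a2, a3⟩ := (h.state hF).1 l' hl'
    obtain ⟨b1, b2, b3⟩ := (h'.state hF).1 l' hl'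
    exact ⟨a1.trans b1.symm, a2.trans b2.symm, a3.trans b3.symm⟩
  · rw [(h.state hF).2, (h'.state hF).2]

theorem W_convex (hF : A.Full) {l : Λ} {x y : Fin n → ℝ} (hW : A.W l x = A.W l y) {s : ℝ}
    (h0 : 0 ≤ s) (h1 : s ≤ 1) : A.W l (x + s • (y - x)) = A.W l x := by
  have hs1 : 0 ≤ 1 - s := by linarith
  have key : ∀ α β : ℝ, 0 < α → 0 < β → 0 < α + s * (β - α) := by
    intro α β ha hb
    have e : α + s * (β - α) = (1 - s) * α + s * β := by ring
    rw [e]
    rcases h0.eq_or_lt with h | h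
    · rw [← h]; simpa using ha
    · have := mul_pos h hb
      have := mul_nonneg hs1 ha.le
      linarith
  obtain ⟨v, hv⟩ := A.W_nonempty hF l x
  have hv' : v ∈ A.W l y := by rw [← hW]; exact hv
  ext u
  constructor
  · intro hu
    by_contra hux
    have hug := (A.mem_W.1 hu).1
    have huy : u ∉ A.W l y := by rw [← hW]; exact hux
    have a1 := A.h_lt_of_notMem hv hug hux
    have a2 := A.h_lt_of_notMem hv' hug huy
    have a3 := (A.mem_W.1 hu).2 v (A.mem_W.1 hv).1
    rw [h_seg, h_seg] at a3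
    have := key _ _ (sub_pos.2 a1) (sub_pos.2 a2)
    linarith
  · intro hu
    have hu' : u ∈ A.W l y := by rw [← hW]; exact hu
    rw [mem_W]
    refine ⟨(A.mem_W.1 hu).1, fun w hw => ?_⟩
    rw [h_seg, h_seg]
    have a1 := (A.mem_W.1 hu).2 w hw
    have a2 := (A.mem_W.1 hu').2 w hw
    nlinarith [mul_nonneg h0 (sub_nonneg.2 a2), mul_nonneg hs1 (sub_nonneg.2 a1)]

theorem neg_of {l : Λ} {z : Fin n → ℝ} {v : ι} (hv : v ∈ A.W l z) (h1 : ¬ A.Act l z)
    (h2 : ¬ A.In l z) : A.h v z < 0 := by
  rw [A.act_iff hv] at h1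
  rw [A.in_iff hv] at h2
  exact lt_of_le_of_ne (not_lt.1 h2) h1

theorem status_of_neg {l : Λ} {z : Fin n → ℝ} {v : ι} (hv : v ∈ A.W l z) (h : A.h v z < 0) :
    ¬ A.Act l z ∧ ¬ A.In l z := by
  rw [A.act_iff hv, A.in_iff hv]
  exact ⟨h.ne, h.not_gt⟩

theorem not_In_lev {e : ℕ} {G S : Finset Λ} {z : Fin n → ℝ} (hz : PV e G S z A)
    (h0 : Disjoint (A.conf z) S) {l : Λ} (hl : l ∈ G ∪ S) (hJ : l ∉ A.Jg z) : ¬ A.In l z := by
  intro hin
  have h1 : ¬ A.Act l z := fun h' => A.not_In_of_act h' hin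
  have h2 : l ∈ A.conf z := by
    rw [mem_conf, Dg, mem_union, not_or]
    exact ⟨⟨fun h' => h1 (A.mem_Ig.1 h'), hJ⟩, hin⟩
  have h3 : l ∈ S := by
    rcases mem_union.1 hl with h' | h'
    · exact absurd (hz.gj h') hJ
    · exact h'
  exact (disjoint_left.1 h0) h2 h3

/-- An outward edge from a pure vertex of level zero to a pure vertex. -/
structure Outw (e : ℕ) (G S : Finset Λ) (z y : Fin n → ℝ) (l p : Λ) (A : Sys n ι Λ κ) : Prop where
  drop : Drop (G ∪ S) z y l (-1) A
  pz : PV e G S z A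
  lev : Disjoint (A.conf z) S
  py : PV e G S y A
  act : A.Act l z
  np : p ∉ A.Dg z
  pS : p ∈ S
  igy : A.Ig y = insert p ((A.Ig z).erase l)
  jgy : A.Jg y = A.Jg z

theorem Outw.state {e : ℕ} {G S : Finset Λ} {z y : Fin n → ℝ} {l p : Λ} (hF : A.Full)
    (h : Outw e G S z y l p A) :
    (∀ l' ∈ G ∪ S, A.W l' (mid z y) = A.W l' z ∧ (A.Act l' (mid z y) ↔ A.Act l' z ∧ l' ≠ l) ∧
      (A.In l' (mid z y) ↔ A.In l' z)) ∧ A.Bt (mid z y) = ∅ := by
  refine ⟨fun l' hl' => ⟨h.drop.W l' hl', ?_, ?_⟩, by rw [h.drop.Bt, h.pz.bt]⟩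
  · by_cases hne : l' = l
    · subst hne
      have := h.drop.not_act_mid hF hl'
      simp [this]
    · rw [(h.drop.other l' hl' hne).1]
      simp [hne]
  · by_cases hne : l' = l
    · subst hne
      obtain ⟨v, hv⟩ := A.W_nonempty hF l' z
      have h1 := h.drop.self v hv
      have h2 : v ∈ A.W l' (mid z y) := by rw [h.drop.W l' hl']; exact hv
      have h3 := (status_of_neg h2 (by linarith)).2
      have h4 := A.not_In_of_act h.act
      simp [h3, h4]
    · exact (h.drop.other l' hl' hne).2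

/-- The key coincidence: if `y` is the inward end of `z` for `l`, `z'` the source of the inward
edge to `y` for the new group `q`, then `z'` is the outward end of `z` for `q`. -/
theorem coincide {e : ℕ} {G S : Finset Λ} {z z' zs y : Fin n → ℝ} {l q u p : Λ} (hF : A.Full)
    (hG : A.GP) (h1 : Inw e G S z y l u A) (h2 : Inw e G S z' y l q A)
    (h3 : Outw e G S z zs q p A) : zs = z' := by
  have hJ : A.Jg z' = A.Jg z := h2.jgy.symm.trans h1.jgy
  have hqF : q ∈ G ∪ S := mem_union_right _ h2.pS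
  have huF : u ∈ G ∪ S := mem_union_right _ h1.pS
  have hW : ∀ l' ∈ G ∪ S, A.W l' z = A.W l' z' := fun l' hl' =>
    (h1.Weq hF hl').trans (h2.Weq hF hl').symm
  have hqI : q ∈ A.Ig z := A.mem_Ig.2 h3.act
  have hlq : l ≠ q := by
    rintro rfl
    exact h2.np (mem_union_left _ (A.mem_Ig.2 h2.act))
  have huq : u ≠ q := by
    rintro rfl
    exact h1.np (mem_union_left _ hqI)
  have hIy : insert u ((A.Ig z).erase l) = insert q ((A.Ig z').erase l) := by
    rw [← h1.igy, ← h2.igy]
  -- active groups of z'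
  have hact' : ∀ l', A.Act l' z' ↔ l' = u ∨ (A.Act l' z ∧ l' ≠ q) := by
    intro l'
    have hm : l' ∈ insert u ((A.Ig z).erase l) ↔ l' ∈ insert q ((A.Ig z').erase l) := by rw [hIy]
    simp only [mem_insert, mem_erase, mem_Ig] at hm
    by_cases hl' : l' = l
    · subst hl'
      have hlu : l' ≠ u := by
        rintro rfl
        exact h1.np (mem_union_left _ (A.mem_Ig.2 h1.act))
      simp only [h2.act, h1.act, hlu, true_and, ne_eq, false_or, true_iff]
      exact hlq
    · by_cases hq : l' = q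
      · subst hq
        have hn : ¬ A.Act l' z' := fun h' => h2.np (mem_union_left _ (A.mem_Ig.2 h'))
        simp only [hn, ne_eq, not_true_eq_false, and_false, or_false, false_iff]
        exact fun h' => huq h'.symm
      · simp only [hl', hq, ne_eq, not_false_eq_true, true_and, false_or, and_true] at hm ⊢
        exact hm.symm
  obtain ⟨hst, hstB⟩ := h3.state hF
  -- the state on the segment from z to z'
  have hseg : ∀ s : ℝ, 0 < s → s < 1 → A.Same (G ∪ S) (mid z zs) (z + s • (z' - z)) := by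
    intro s s0 s1
    have s1' : 0 < 1 - s := by linarith
    refine ⟨fun l' hl' => ?_, ?_⟩
    · obtain ⟨c1, c2, c3⟩ := hst l' hl'
      have hWp := W_convex hF (hW l' hl') s0.le s1.le
      obtain ⟨v, hv⟩ := A.W_nonempty hF l' z
      have hv' : v ∈ A.W l' z' := by rw [← hW l' hl']; exact hv
      have hvp : v ∈ A.W l' (z + s • (z' - z)) := by rw [hWp]; exact hv
      have hval : A.h v (z + s • (z' - z)) = (1 - s) * A.h v z + s * A.h v z' := by
        rw [h_seg]; ring
      have hgoal : (A.Act l' z ∧ l' ≠ q ↔ A.Act l' (z + s • (z' - z))) ∧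
          (A.In l' z ↔ A.In l' (z + s • (z' - z))) := by
        by_cases hJ' : l' ∈ A.Jg z
        · have hJ'' : l' ∈ A.Jg z' := by rw [hJ]; exact hJ'
          have hJy : l' ∈ A.Jg y := by rw [h1.jgy]; exact hJ'
          have n1 := h1.pz.dis l' hJ'
          have n2 := h2.pz.dis l' hJ''
          have n3 := h1.py.dis l' hJy
          have hl'l : l' ≠ l := by
            rintro rfl
            exact n1 h1.act
          have i1 : A.In l' z ↔ A.In l' y := by
            obtain ⟨e1, e2, e3, e4⟩ := h1.drop.end hF l' hl'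
            exact ⟨fun h => (e3 hl'l h).resolve_right n3, e4 hl'l⟩
          have i2 : A.In l' z' ↔ A.In l' y := by
            obtain ⟨e1, e2, e3, e4⟩ := h2.drop.end hF l' hl'
            exact ⟨fun h => (e3 hl'l h).resolve_right n3, e4 hl'l⟩
          by_cases hin : A.In l' z
          · have hin' : A.In l' z' := i2.2 (i1.1 hin)
            have p1 := (A.in_iff hv).1 hin
            have p2 := (A.in_iff hv').1 hin'
            have p3 : 0 < A.h v (z + s • (z' - z)) := by
              rw [hval]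
              have := mul_pos s1' p1
              have := mul_pos s0 p2
              linarith
            have p4 : A.In l' (z + s • (z' - z)) := (A.in_iff hvp).2 p3
            have p5 : ¬ A.Act l' (z + s • (z' - z)) := fun h => A.not_In_of_act h p4
            simp [n1, p5, hin, p4]
          · have hin' : ¬ A.In l' z' := fun h => hin (i1.2 (i2.1 h))
            have p1 := neg_of hv n1 hin
            have p2 := neg_of hv' n2 hin'
            have p3 : A.h v (z + s • (z' - z)) < 0 := by
              rw [hval]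
              have := mul_pos s1' (neg_pos.2 p1)
              have := mul_pos s0 (neg_pos.2 p2)
              linarith
            obtain ⟨p4, p5⟩ := status_of_neg hvp p3
            simp [n1, p5, hin, p4]
        · have m1 := not_In_lev h1.pz h1.lev hl' hJ'
          have m2 := not_In_lev h2.pz h2.lev hl' (by rw [hJ]; exact hJ')
          have k1 : A.h v z ≤ 0 := by
            rw [A.in_iff hv] at m1
            exact not_lt.1 m1
          have k2 : A.h v z' ≤ 0 := by
            rw [A.in_iff hv'] at m2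
            exact not_lt.1 m2
          have k3 := mul_nonneg s1'.le (neg_nonneg.2 k1)
          have k4 := mul_nonneg s0.le (neg_nonneg.2 k2)
          have k5 : ¬ A.In l' (z + s • (z' - z)) := by
            rw [A.in_iff hvp, hval]
            intro h
            linarith
          refine ⟨?_, by simp [m1, k5]⟩
          have k6 : A.Act l' (z + s • (z' - z)) ↔ A.Act l' z ∧ A.Act l' z' := by
            rw [A.act_iff hvp, A.act_iff hv, A.act_iff hv', hval]
            constructor
            · intro h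
              have e1 : (1 - s) * -A.h v z = 0 := by linarith
              have e2 : s * -A.h v z' = 0 := by linarith
              have e3 := (mul_eq_zero.1 e1).resolve_left s1'.ne'
              have e4 := (mul_eq_zero.1 e2).resolve_left s0.ne'
              exact ⟨by linarith, by linarith⟩
            · rintro ⟨h, h'⟩
              rw [h, h']; ring
          rw [k6, hact' l']
          constructor
          · rintro ⟨g1, g2⟩
            exact ⟨g1, Or.inr ⟨g1, g2⟩⟩
          · rintro ⟨g1, g2 | g2⟩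
            · subst g2
              exact absurd (mem_union_left _ (A.mem_Ig.2 g1)) h1.np
            · exact g2
      exact ⟨c1.trans hWp.symm, c2.trans hgoal.1, c3.trans hgoal.2⟩
    · rw [hstB]
      symm
      rw [eq_empty_iff_forall_notMem]
      intro k hk
      rw [mem_Bt, bx_seg] at hk
      have k1 : 0 < A.bx k z := A.bx_pos_of_notMem h1.pz.vtx.1 (by rw [h1.pz.bt]; simp)
      have k2 : 0 < A.bx k z' := A.bx_pos_of_notMem h2.pz.vtx.1 (by rw [h2.pz.bt]; simp)
      have := mul_pos s1' k1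
      have := mul_pos s0 k2
      nlinarith
  have hmid := hseg (1 / 2) (by norm_num) (by norm_num)
  have hE : A.Edge (G ∪ S) z z' := by
    refine ⟨h1.pz.vtx, h2.pz.vtx, ?_, fun s s0 s1 => hmid.symm.trans (hseg s s0 s1)⟩
    have h4 := h3.drop.edge.cnt
    rw [hmid.cnt] at h4
    exact h4
  refine Edge.unique hF hG h3.drop.edge.symm hE.symm ?_
  rw [mid_comm, mid_comm z' z]
  exact hmid

/-- The vertex `z` lies between its two neighbours in opposite directions. -/
theorem opposite {e : ℕ} {G S : Finset Λ} {z y ys : Fin n → ℝ} {l p : Λ} (hF : A.Full)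
    (hG : A.GP) (h1 : Inw e G S z y l p A) (h2 : Outw e G S z ys l p A) : False := by
  have hlF : l ∈ G ∪ S := mem_union_right _ h1.lF
  have hpF : p ∈ G ∪ S := mem_union_right _ h1.pS
  obtain ⟨d0, hd00, _, hall⟩ :=
    (linFacts n κ ι Λ A hF hG (G ∪ S) _ h1.drop.edge.box).2.2.2.2 h1.drop.edge.cnt
  -- the two kernels agree
  have hker : A.Ker (G ∪ S) (mid z y) (z - ys) := by
    have h3 : A.Ker (G ∪ S) (mid ys z) (ys - z) := h2.drop.edge.symm.ker
    rw [mid_comm] at h3
    obtain ⟨k1, k2, k3⟩ := h3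
    have e1 : ∀ x : Fin n → ℝ, x ⬝ᵥ (z - ys) = -(x ⬝ᵥ (ys - z)) := by
      intro x
      rw [← dotProduct_neg, neg_sub]
    have hact : ∀ l' ∈ G ∪ S, (A.Act l' (mid z y) ↔ A.Act l' (mid z ys)) := by
      intro l' hl'
      by_cases hne : l' = l
      · subst hne
        have a1 := h1.drop.not_act_mid hF hl'
        have a2 := h2.drop.not_act_mid hF hl'
        simp [a1, a2]
      · rw [(h1.drop.other l' hl' hne).1, (h2.drop.other l' hl' hne).1]
    refine ⟨fun l' hl' v hv w hw => ?_, fun l' hl' ha v hv => ?_, fun k hk => ?_⟩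
    · rw [h1.drop.W l' hl', ← h2.drop.W l' hl'] at hv hw
      rw [e1, e1, k1 l' hl' v hv w hw]
    · rw [h1.drop.W l' hl', ← h2.drop.W l' hl'] at hv
      rw [e1, k2 l' hl' ((hact l' hl').1 ha) v hv, neg_zero]
    · rw [h1.drop.Bt, ← h2.drop.Bt] at hk
      rw [e1, k3 k hk, neg_zero]
  obtain ⟨c1, hc1⟩ := hall _ (h1.drop.edge.ker : A.Ker (G ∪ S) (mid z y) (z - y))
  obtain ⟨c2, hc2⟩ := hall _ hker
  have ea : ∀ v x, A.a v ⬝ᵥ (z - x) = A.h v z - A.h v x := by
    intro v x
    simp only [Sys.h, dotProduct_sub]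
    ring
  -- signs from the group l
  obtain ⟨v, hv⟩ := A.W_nonempty hF l z
  have s1 := h1.drop.h_end h1.act hv
  have s2 := h2.drop.h_end h2.act hv
  have z0 := A.h_eq_zero_of_act h1.act hv
  have t1 : c1 * (A.a v ⬝ᵥ d0) < 0 := by
    have := ea v y
    rw [hc1, dotProduct_smul, smul_eq_mul] at this
    linarith
  have t2 : 0 < c2 * (A.a v ⬝ᵥ d0) := by
    have := ea v ys
    rw [hc2, dotProduct_smul, smul_eq_mul] at this
    linarith
  -- the group p
  obtain ⟨w, hw⟩ := A.W_nonempty hF p z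
  have hpy : A.Act p y := by
    rw [← A.mem_Ig, h1.igy]
    exact mem_insert_self _ _
  have hpys : A.Act p ys := by
    rw [← A.mem_Ig, h2.igy]
    exact mem_insert_self _ _
  have w1 := A.h_eq_zero_of_act hpy ((h1.drop.end hF p hpF).1 hw)
  have w2 := A.h_eq_zero_of_act hpys ((h2.drop.end hF p hpF).1 hw)
  have r1 : A.h w z = c1 * (A.a w ⬝ᵥ d0) := by
    have := ea w y
    rw [hc1, dotProduct_smul, smul_eq_mul] at this
    linarith
  have r2 : A.h w z = c2 * (A.a w ⬝ᵥ d0) := by
    have := ea w ys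
    rw [hc2, dotProduct_smul, smul_eq_mul] at this
    linarith
  have hne : c1 ≠ c2 := by
    rintro rfl
    linarith
  have hw0 : A.a w ⬝ᵥ d0 = 0 := by
    have : (c1 - c2) * (A.a w ⬝ᵥ d0) = 0 := by linarith
    exact (mul_eq_zero.1 this).resolve_left (sub_ne_zero.2 hne)
  rw [hw0, mul_zero] at r1
  exact h1.np (mem_union_left _ (A.mem_Ig.2 ((A.act_iff hw).2 r1)))

/-- The contradiction behind the gain. -/
theorem no_saturated {e : ℕ} {G S : Finset Λ} {z : Fin n → ℝ} (he : 2 ≤ e) (hF : A.Full)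
    (hG : A.GP) (hz : PV e G S z A) (yi yo : Λ → Fin n → ℝ) (u p : Λ → Λ)
    (hi : ∀ l ∈ A.Ig z, Inw e G S z (yi l) l (u l) A)
    (ho : ∀ l ∈ A.Ig z, Outw e G S z (yo l) l (p l) A)
    (hsat : ∀ l ∈ A.Ig z, ∀ q ∈ A.Ig (yi l), ∃ z', Inw e G S z' (yi l) l q A) : False := by
  have hup : ∀ l ∈ A.Ig z, ∀ q ∈ A.Ig z, l ≠ q → u l = p q := by
    intro l hl q hq hlq
    have hqy : q ∈ A.Ig (yi l) := by
      rw [(hi l hl).igy]
      exact mem_insert_of_mem (mem_erase.2 ⟨hlq.symm, hq⟩)
    obtain ⟨z', hz'⟩ := hsat l hl q hqy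
    have hco := coincide hF hG (hi l hl) hz' (ho q hq)
    -- compare the active groups
    have hu : u l ∈ A.Ig z' := by
      have h1 : u l ∈ A.Ig (yi l) := by
        rw [(hi l hl).igy]
        exact mem_insert_self _ _
      rw [hz'.igy, mem_insert] at h1
      rcases h1 with h1 | h1
      · exfalso
        apply (hi l hl).np
        rw [h1]
        exact mem_union_left _ hq
      · exact mem_of_mem_erase h1
    rw [← hco, (ho q hq).igy, mem_insert] at hu
    rcases hu with hu | hu
    · exact hu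
    · exact absurd (mem_union_left _ (mem_of_mem_erase hu)) (hi l hl).np
  have hc : 2 < (A.Ig z).card := by rw [hz.igc]; omega
  obtain ⟨a, b, c, ha, hb, hc', hab, hac, hbc⟩ := two_lt_card_iff.1 hc
  have h1 : u a = p a := by
    rw [hup a ha b hb hab, ← hup c hc' b hb (Ne.symm hbc), hup c hc' a ha (Ne.symm hac)]
  have h2 := ho a ha
  rw [← h1] at h2
  exact opposite hF hG (hi a ha) h2

end Sys

end Pool.Agent.Helper39.Trans
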