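import Mathlib

/-!
# Systems of groups of affine functions (MP_549fdb_co): definitions

A system consists of finitely many affine functions `h v` on `ℝ^n`, partitioned into groups, and of
some further affine functions `bx k` (the walls of a box). The open convex set of the group `l` is
`{q | In l q}` (all functions of the group are positive). `W l q` is the set of the functions of the
group `l` that are minimal at `q`; `Act l q` means that this minimum is zero.
-/

namespace Pool.Agent.Helper39.Trans

open Finset Classical Matrix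

/-- Affine functions `h v q = a v ⬝ᵥ q + b v` in groups, and box functions. -/
structure Sys (n : ℕ) (ι Λ κ : Type) where
  grp : ι → Λ
  a : ι → Fin n → ℝ
  b : ι → ℝ
  ba : κ → Fin n → ℝ
  bb : κ → ℝ

namespace Sys

variable {n : ℕ} {ι Λ κ : Type} [Fintype ι] [Fintype Λ] [Fintype κ] (A : Sys n ι Λ κ)

omit [Fintype ι] [Fintype Λ] [Fintype κ] in
/-- The function with index `v`. -/
def h (v : ι) (q : Fin n → ℝ) : ℝ := A.a v ⬝ᵥ q + A.b v

omit [Fintype ι] [Fintype Λ] [Fintype κ] in
/-- The box function with index `k`. -/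
def bx (k : κ) (q : Fin n → ℝ) : ℝ := A.ba k ⬝ᵥ q + A.bb k

/-- The functions of the group `l`. -/
noncomputable def fib (l : Λ) : Finset ι := univ.filter fun v => A.grp v = l

/-- The functions of the group `l` that are minimal at `q`. -/
noncomputable def W (l : Λ) (q : Fin n → ℝ) : Finset ι :=
  (A.fib l).filter fun v => ∀ w ∈ A.fib l, A.h v q ≤ A.h w q

/-- The group `l` is active at `q`: its minimum is zero. -/
def Act (l : Λ) (q : Fin n → ℝ) : Prop := ∃ v ∈ A.W l q, A.h v q = 0

/-- `q` lies in the open convex set of the group `l`. -/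
def In (l : Λ) (q : Fin n → ℝ) : Prop := ∀ v ∈ A.fib l, 0 < A.h v q

/-- `q` lies in the closed box. -/
def Box (q : Fin n → ℝ) : Prop := ∀ k, 0 ≤ A.bx k q

/-- The box functions vanishing at `q`. -/
noncomputable def Bt (q : Fin n → ℝ) : Finset κ := univ.filter fun k => A.bx k q = 0

/-- The active groups at `q`. -/
noncomputable def Ig (q : Fin n → ℝ) : Finset Λ := univ.filter fun l => A.Act l q

/-- The groups with a tie at `q`. -/
noncomputable def Jg (q : Fin n → ℝ) : Finset Λ := univ.filter fun l => 2 ≤ (A.W l q).card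

/-- The groups that define `q`. -/
noncomputable def Dg (q : Fin n → ℝ) : Finset Λ := A.Ig q ∪ A.Jg q

/-- The groups not defining `q` whose convex set contains `q`. -/
noncomputable def conf (q : Fin n → ℝ) : Finset Λ :=
  univ.filter fun l => l ∉ A.Dg q ∧ A.In l q

/-- The number of constraints that are tight at `q`, for the subfamily `S`. -/
noncomputable def cnt (S : Finset Λ) (q : Fin n → ℝ) : ℕ :=
  ∑ l ∈ S, ((A.W l q).card - 1) + (S.filter fun l => A.Act l q).card + (A.Bt q).card

/-- General position: at every point of the box the tight constraints are independent. -/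
def GP : Prop := ∀ q, A.Box q → ∀ (lam : ι → ℝ) (mu : κ → ℝ),
  (∀ v, lam v ≠ 0 → v ∈ A.W (A.grp v) q) → (∀ k, mu k ≠ 0 → k ∈ A.Bt q) →
  (∀ l, ¬ A.Act l q → ∑ v ∈ A.fib l, lam v = 0) →
  (∑ v, lam v • A.a v + ∑ k, mu k • A.ba k = 0) → lam = 0 ∧ mu = 0

/-- Vertices of the subfamily `S`. -/
def Vtx (S : Finset Λ) (q : Fin n → ℝ) : Prop := A.Box q ∧ A.cnt S q = n

/-- Every group is nonempty. -/
def Full : Prop := Function.Surjective A.grp

/-- The size of a set of groups. -/
noncomputable def size (S : Finset Λ) : ℕ := ∑ l ∈ S, (A.fib l).card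

/-- The box is bounded. -/
def Bdd : Prop := ∃ R : ℝ, ∀ q, A.Box q → ∀ i, |q i| ≤ R

/-- The combinatorial type of a point. -/
noncomputable def typ (q : Fin n → ℝ) : (Λ → Finset ι) × Finset Λ := (fun l => A.W l q, A.Ig q)

/-- Perturbed system. -/
def shift (δ : ι → ℝ) (η : κ → ℝ) : Sys n ι Λ κ where
  grp := A.grp
  a := A.a
  b := fun v => A.b v + δ v
  ba := A.ba
  bb := fun k => A.bb k + η k

/-- Pure vertices: `e + 1` active groups, `n - e - 1` groups with a tie, all different. The set
`G` is contained in the set of the groups with a tie, and all groups belong to `G ∪ S`. -/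
def PureSet (e : ℕ) (G S : Finset Λ) : Set (Fin n → ℝ) :=
  {q | A.Vtx univ q ∧ (A.Dg q).card = n ∧ (A.Ig q).card = e + 1 ∧ A.Dg q ⊆ G ∪ S ∧ G ⊆ A.Jg q}

/-- Vertices with `n - 1` defining groups. -/
def DefSet (G S : Finset Λ) : Set (Fin n → ℝ) :=
  {q | A.Vtx univ q ∧ (A.Dg q).card + 1 = n ∧ A.Dg q ⊆ G ∪ S ∧ G ⊆ A.Jg q}

end Sys

/-- The inverse Ackermann function. -/
noncomputable def invAck (n : ℕ) : ℕ := sInf {k | n ≤ ack k k}

/-- A sequence without alternations `a b a b a`. -/
def Alt5Free {σ : Type} (L : List σ) : Prop := ∀ a b : σ, a ≠ b → ¬ ([a, b, a, b, a].Sublist L)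

end Pool.Agent.Helper39.Trans
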