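import Pool.Agent.Helper39.Trans.Lin

/-!
# Moving along edges
-/

set_option linter.unusedSectionVars false

namespace Pool.Agent.Helper39.Trans

open Finset Classical Matrix

/-- The first positive zero of finitely many affine functions on the line. -/
theorem first_zero (F : Set (ℝ × ℝ)) (hF : F.Finite) (h0 : ∀ p ∈ F, p.1 ≠ 0)
    (hex : ∃ p ∈ F, ∃ s, 0 < s ∧ p.1 + s * p.2 = 0) :
    ∃ s, 0 < s ∧ (∃ p ∈ F, p.1 + s * p.2 = 0) ∧ ∀ s', 0 ≤ s' → s' < s → ∀ p ∈ F,
      (0 < p.1 → 0 < p.1 + s' * p.2) ∧ (p.1 < 0 → p.1 + s' * p.2 < 0) := by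
  let Z : Set ℝ := {s | 0 < s ∧ ∃ p ∈ F, p.1 + s * p.2 = 0}
  have hZf : Z.Finite := by
    refine (hF.image fun p => -p.1 / p.2).subset ?_
    rintro s ⟨hs, p, hp, h⟩
    refine ⟨p, hp, ?_⟩
    have h2 : p.2 ≠ 0 := by
      intro h2
      rw [h2, mul_zero, add_zero] at h
      exact h0 p hp h
    change -p.1 / p.2 = s
    rw [div_eq_iff h2]
    linarith
  have hZn : Z.Nonempty := by
    obtain ⟨p, hp, s, hs, h⟩ := hex
    exact ⟨s, hs, p, hp, h⟩
  obtain ⟨s, ⟨hs, hp⟩, hmin⟩ := Set.exists_min_image Z id hZf hZn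
  refine ⟨s, hs, hp, fun s' hs' hlt p hp' => ⟨fun hpos => ?_, fun hneg => ?_⟩⟩
  · by_contra hcon
    have h2 : p.2 < 0 := by
      by_contra h2
      have := mul_nonneg hs' (not_lt.1 h2)
      linarith
    have hz : -p.1 / p.2 ∈ Z := ⟨div_pos_of_neg_of_neg (by linarith) h2, p, hp', by
      rw [div_mul_cancel₀ _ h2.ne]; ring⟩
    have h3 : s ≤ -p.1 / p.2 := hmin _ hz
    have h4 : -p.1 ≤ s * p.2 := by
      rw [le_div_iff_of_neg h2] at h3
      exact h3
    have h5 : s * p.2 < s' * p.2 := mul_lt_mul_of_neg_right hlt h2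
    linarith
  · by_contra hcon
    have h2 : 0 < p.2 := by
      by_contra h2
      have := mul_nonneg hs' (by linarith : 0 ≤ -p.2)
      nlinarith
    have hz : -p.1 / p.2 ∈ Z := ⟨div_pos (by linarith) h2, p, hp', by
      rw [div_mul_cancel₀ _ h2.ne']; ring⟩
    have h3 : s ≤ -p.1 / p.2 := hmin _ hz
    rw [le_div_iff₀ h2] at h3
    have h5 : s' * p.2 < s * p.2 := mul_lt_mul_of_pos_right hlt h2
    linarith

theorem keep_sign (F : Set (ℝ × ℝ)) (hF : F.Finite) (h0 : ∀ p ∈ F, p.1 ≠ 0) :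
    ∃ s, 0 < s ∧ ∀ s', 0 ≤ s' → s' < s → ∀ p ∈ F,
      (0 < p.1 → 0 < p.1 + s' * p.2) ∧ (p.1 < 0 → p.1 + s' * p.2 < 0) := by
  obtain ⟨s, hs, _, h⟩ := first_zero (insert (1, -1) F) (hF.insert _) (by
    rintro p (rfl | hp)
    · exact one_ne_zero
    · exact h0 p hp) ⟨(1, -1), Set.mem_insert _ _, 1, one_pos, by norm_num⟩
  exact ⟨s, hs, fun s' h1 h2 p hp => h s' h1 h2 p (Set.mem_insert_of_mem _ hp)⟩

namespace Sys

variable {n : ℕ} {ι Λ κ : Type} [Fintype ι] [Fintype Λ] [Fintype κ] (A : Sys n ι Λ κ)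

/-- The events on the ray from `q` in the direction `d`. -/
def evs (S : Finset Λ) (q d : Fin n → ℝ) : Set (ℝ × ℝ) :=
  {p | ∃ l ∈ S, ∃ w ∈ A.W l q, ∃ v, A.grp v = l ∧ v ∉ A.W l q ∧
    p = (A.h v q - A.h w q, A.a v ⬝ᵥ d - A.a w ⬝ᵥ d)} ∪
  ({p | ∃ l ∈ S, ∃ w ∈ A.W l q, ¬ A.Act l q ∧ p = (A.h w q, A.a w ⬝ᵥ d)} ∪
  {p | ∃ k, k ∉ A.Bt q ∧ p = (A.bx k q, A.ba k ⬝ᵥ d)})

theorem evs_finite (S : Finset Λ) (q d : Fin n → ℝ) : (A.evs S q d).Finite := by
  refine Set.Finite.union ?_ (Set.Finite.union ?_ ?_)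
  · refine (Set.finite_range fun p : ι × ι =>
      (A.h p.1 q - A.h p.2 q, A.a p.1 ⬝ᵥ d - A.a p.2 ⬝ᵥ d)).subset ?_
    rintro p ⟨l, _, w, _, v, _, _, rfl⟩
    exact ⟨(v, w), rfl⟩
  · refine (Set.finite_range fun w : ι => (A.h w q, A.a w ⬝ᵥ d)).subset ?_
    rintro p ⟨l, _, w, _, _, rfl⟩
    exact ⟨w, rfl⟩
  · refine (Set.finite_range fun k : κ => (A.bx k q, A.ba k ⬝ᵥ d)).subset ?_
    rintro p ⟨k, _, rfl⟩
    exact ⟨k, rfl⟩

theorem h_lt_of_notMem {l : Λ} {v w : ι} {q : Fin n → ℝ} (hw : w ∈ A.W l q) (hv : A.grp v = l)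
    (hv' : v ∉ A.W l q) : A.h w q < A.h v q := by
  by_contra h
  apply hv'
  rw [mem_W]
  exact ⟨hv, fun u hu => (not_lt.1 h).trans ((A.mem_W.1 hw).2 u hu)⟩

theorem bx_pos_of_notMem {k : κ} {q : Fin n → ℝ} (hq : A.Box q) (hk : k ∉ A.Bt q) :
    0 < A.bx k q := by
  refine lt_of_le_of_ne (hq k) fun h => hk ?_
  simp [Bt, h.symm]

theorem mem_Bt {k : κ} {q : Fin n → ℝ} : k ∈ A.Bt q ↔ A.bx k q = 0 := by simp [Bt]

theorem evs_ne {S : Finset Λ} {q : Fin n → ℝ} (hq : A.Box q) (d : Fin n → ℝ) :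
    ∀ p ∈ A.evs S q d, p.1 ≠ 0 := by
  rintro p (⟨l, _, w, hw, v, hv, hv', rfl⟩ | ⟨l, _, w, hw, hl, rfl⟩ | ⟨k, hk, rfl⟩)
  · exact (sub_pos.2 (A.h_lt_of_notMem hw hv hv')).ne'
  · exact fun h => hl ((A.act_iff hw).2 h)
  · exact (A.bx_pos_of_notMem hq hk).ne'

/-- All signs are kept at the time `s` on the ray. -/
def Kept (S : Finset Λ) (q d : Fin n → ℝ) (s : ℝ) : Prop :=
  ∀ p ∈ A.evs S q d, (0 < p.1 → 0 < p.1 + s * p.2) ∧ (p.1 < 0 → p.1 + s * p.2 < 0)

/-- The state at a point of a ray along which the ties and the box are preserved. -/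
theorem state_of_kept {S : Finset Λ} {q d : Fin n → ℝ} (hF : A.Full) (hq : A.Box q)
    (hW : ∀ l ∈ S, ∀ v ∈ A.W l q, ∀ w ∈ A.W l q, A.a v ⬝ᵥ d = A.a w ⬝ᵥ d)
    (hB : ∀ k ∈ A.Bt q, A.ba k ⬝ᵥ d = 0) {s : ℝ} (hK : A.Kept S q d s) :
    (∀ l ∈ S, A.W l (q + s • d) = A.W l q) ∧ A.Bt (q + s • d) = A.Bt q ∧ A.Box (q + s • d) ∧
    (∀ l ∈ S, ¬ A.Act l q → ¬ A.Act l (q + s • d) ∧ (A.In l (q + s • d) ↔ A.In l q)) ∧
    (∀ l ∈ S, A.Act l q → ∀ v ∈ A.W l q, A.h v (q + s • d) = s * (A.a v ⬝ᵥ d)) := by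
  have hgap : ∀ l ∈ S, ∀ w ∈ A.W l q, ∀ v, A.grp v = l → v ∉ A.W l q →
      A.h w (q + s • d) < A.h v (q + s • d) := by
    intro l hl w hw v hv hv'
    have := (hK _ (Or.inl ⟨l, hl, w, hw, v, hv, hv', rfl⟩)).1
      (sub_pos.2 (A.h_lt_of_notMem hw hv hv'))
    rw [h_add, h_add]
    simp only at this
    linarith
  have hWe : ∀ l ∈ S, A.W l (q + s • d) = A.W l q := by
    intro l hl
    ext v
    constructor
    · intro hv
      by_contra hv'
      obtain ⟨w, hw⟩ := A.W_nonempty hF l q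
      have h1 := hgap l hl w hw v (A.mem_W.1 hv).1 hv'
      have h2 := (A.mem_W.1 hv).2 w (A.mem_W.1 hw).1
      linarith
    · intro hv
      rw [mem_W]
      refine ⟨(A.mem_W.1 hv).1, fun u hu => ?_⟩
      by_cases hu' : u ∈ A.W l q
      · rw [h_add, h_add, hW l hl v hv u hu', A.h_eq_of_mem_W hv hu']
      · exact (hgap l hl v hv u hu hu').le
  have hbx : ∀ k, k ∉ A.Bt q → 0 < A.bx k (q + s • d) := by
    intro k hk
    have := (hK _ (Or.inr (Or.inr ⟨k, hk, rfl⟩))).1 (A.bx_pos_of_notMem hq hk)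
    rw [bx_add]
    exact this
  have hbx0 : ∀ k ∈ A.Bt q, A.bx k (q + s • d) = 0 := by
    intro k hk
    rw [bx_add, A.mem_Bt.1 hk, hB k hk]
    ring
  refine ⟨hWe, ?_, ?_, ?_, ?_⟩
  · ext k
    by_cases hk : k ∈ A.Bt q
    · simp only [hk, iff_true, mem_Bt]
      exact hbx0 k hk
    · simp only [hk, iff_false, mem_Bt]
      exact (hbx k hk).ne'
  · intro k
    by_cases hk : k ∈ A.Bt q
    · exact (hbx0 k hk).ge
    · exact (hbx k hk).le
  · intro l hl hact
    obtain ⟨w, hw⟩ := A.W_nonempty hF l q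
    have hw' : w ∈ A.W l (q + s • d) := by rw [hWe l hl]; exact hw
    have hk := hK _ (Or.inr (Or.inl ⟨l, hl, w, hw, hact, rfl⟩))
    simp only at hk
    rw [A.act_iff hw', A.in_iff hw', A.in_iff hw, h_add]
    have hne : A.h w q ≠ 0 := fun h => hact ((A.act_iff hw).2 h)
    rcases lt_or_gt_of_ne hne with h | h
    · have := hk.2 h
      exact ⟨this.ne, ⟨fun h' => absurd h' this.not_gt, fun h' => absurd h' h.not_gt⟩⟩
    · have := hk.1 h
      exact ⟨this.ne', ⟨fun _ => h, fun _ => this⟩⟩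
  · intro l hl hact v hv
    rw [h_add, A.h_eq_zero_of_act hact hv, zero_add]

theorem same_of_kept {S : Finset Λ} {q d : Fin n → ℝ} (hF : A.Full) (hq : A.Box q)
    (hd : A.Ker S q d) {s : ℝ} (hK : A.Kept S q d s) :
    A.Same S q (q + s • d) ∧ A.Box (q + s • d) := by
  obtain ⟨h1, h2, h3, h4, h5⟩ := A.state_of_kept hF hq hd.1 hd.2.2 hK
  refine ⟨⟨fun l hl => ⟨(h1 l hl).symm, ?_⟩, h2.symm⟩, h3⟩
  by_cases hact : A.Act l q
  · obtain ⟨w, hw⟩ := A.W_nonempty hF l q
    have hw' : w ∈ A.W l (q + s • d) := by rw [h1 l hl]; exact hw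
    have h0 := h5 l hl hact w hw
    rw [hd.2.1 l hl hact w hw, mul_zero] at h0
    rw [A.act_iff hw', A.in_iff hw', A.in_iff hw, h0, A.h_eq_zero_of_act hact hw]
    simp [hact]
  · have := h4 l hl hact
    exact ⟨⟨fun h => absurd h hact, fun h => absurd h this.1⟩, this.2.symm⟩

end Sys

theorem edgeExit (n : ℕ) (κ : Type) [Fintype κ] : EdgeExit n κ := by
  intro ι Λ _ _ A hF hG hBd S q d hq hc hd0 hd
  have hLF := linFacts n κ ι Λ A hF hG S
  -- some event happens
  have hex : ∃ p ∈ A.evs S q d, ∃ s, 0 < s ∧ p.1 + s * p.2 = 0 := by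
    by_contra hno
    have hkept : ∀ s : ℝ, 0 ≤ s → A.Kept S q d s := by
      intro s hs p hp
      constructor
      · intro hpos
        by_contra hcon
        have h2 : p.2 < 0 := by
          by_contra h2
          have := mul_nonneg hs (not_lt.1 h2)
          linarith
        exact hno ⟨p, hp, -p.1 / p.2, div_pos_of_neg_of_neg (by linarith) h2, by
          rw [div_mul_cancel₀ _ h2.ne]; ring⟩
      · intro hneg
        by_contra hcon
        have h2 : 0 < p.2 := by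
          by_contra h2
          have := mul_nonneg hs (by linarith : 0 ≤ -p.2)
          nlinarith
        exact hno ⟨p, hp, -p.1 / p.2, div_pos (by linarith) h2, by
          rw [div_mul_cancel₀ _ h2.ne']; ring⟩
    obtain ⟨R, hR⟩ := hBd
    obtain ⟨i, hi⟩ : ∃ i, d i ≠ 0 := by
      by_contra h
      push_neg at h
      exact hd0 (funext h)
    have hR0 : 0 ≤ R := (abs_nonneg _).trans (hR q hq i)
    have hpos : 0 < |d i| := abs_pos.2 hi
    have hs0 : 0 ≤ (2 * R + 1) / |d i| := by positivity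
    have hbox := (A.same_of_kept hF hq hd (hkept _ hs0)).2
    have h1 := hR _ hbox i
    have h2 := hR q hq i
    simp only [Pi.add_apply, Pi.smul_apply, smul_eq_mul] at h1
    have h3 : |(2 * R + 1) / |d i| * d i| = 2 * R + 1 := by
      rw [abs_mul, abs_of_nonneg hs0, div_mul_cancel₀ _ hpos.ne']
    have h4 : |(2 * R + 1) / |d i| * d i| ≤ |q i + (2 * R + 1) / |d i| * d i| + |q i| := by
      have := abs_sub (q i + (2 * R + 1) / |d i| * d i) (q i)
      rwa [add_sub_cancel_left] at this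
    linarith
  obtain ⟨s, hs, ⟨p, hp, hp0⟩, hkept⟩ := first_zero _ (A.evs_finite S q d) (A.evs_ne hq d) hex
  have hkept' : ∀ s', 0 ≤ s' → s' < s → A.Kept S q d s' := hkept
  have hsame : ∀ s', 0 ≤ s' → s' < s → A.Same S q (q + s' • d) := fun s' h1 h2 =>
    (A.same_of_kept hF hq hd (hkept' s' h1 h2)).1
  -- weak inequalities at the time s
  have hweak : ∀ α β : ℝ, (∀ s', 0 ≤ s' → s' < s → 0 ≤ α + s' * β) → 0 ≤ α + s * β := by
    intro α β h
    by_contra hcon
    have hα : 0 ≤ α := by simpa using h 0 le_rfl hs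
    have hβ : β < 0 := by
      by_contra hβ
      have := mul_nonneg hs.le (not_lt.1 hβ)
      linarith
    -- the zero -α/β is less than s
    have h1 : -α / β < s := by
      rw [div_lt_iff_of_neg hβ]
      linarith
    have h2 : 0 ≤ -α / β := div_nonneg_of_nonpos (by linarith) hβ.le
    have h3 := h ((-α / β + s) / 2) (by linarith) (by linarith)
    have h4 : -α / β * β = -α := div_mul_cancel₀ _ hβ.ne
    have h5 : (-α / β + s) / 2 * β = (-α + s * β) / 2 := by
      rw [div_mul_eq_mul_div, add_mul, h4]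
    rw [h5] at h3
    linarith
  have hWsub : ∀ l ∈ S, A.W l q ⊆ A.W l (q + s • d) := by
    intro l hl v hv
    rw [A.mem_W]
    refine ⟨(A.mem_W.1 hv).1, fun w hw => ?_⟩
    have := hweak (A.h w q - A.h v q) (A.a w ⬝ᵥ d - A.a v ⬝ᵥ d) fun s' h1 h2 => by
      have hv' : v ∈ A.W l (q + s' • d) := by rw [← ((hsame s' h1 h2).1 l hl).1]; exact hv
      have := (A.mem_W.1 hv').2 w hw
      rw [A.h_add, A.h_add] at this
      linarith
    rw [A.h_add, A.h_add]
    linarith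
  have hAct : ∀ l ∈ S, A.Act l q → A.Act l (q + s • d) := by
    intro l hl hact
    obtain ⟨v, hv⟩ := A.W_nonempty hF l q
    rw [A.act_iff (hWsub l hl hv), A.h_add, A.h_eq_zero_of_act hact hv, hd.2.1 l hl hact v hv]
    ring
  have hBt : A.Bt q ⊆ A.Bt (q + s • d) := by
    intro k hk
    rw [A.mem_Bt, A.bx_add, A.mem_Bt.1 hk, hd.2.2 k hk]
    ring
  have hbox : A.Box (q + s • d) := by
    intro k
    rw [A.bx_add]
    refine hweak _ _ fun s' h1 h2 => ?_
    have := (A.same_of_kept hF hq hd (hkept' s' h1 h2)).2 k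
    rwa [A.bx_add] at this
  refine ⟨s, hs, ⟨hbox, ?_⟩, hsame, fun l hl => ⟨hWsub l hl, hAct l hl, ?_, ?_⟩, hBt⟩
  · -- the kernel is trivial
    refine (hLF _ hbox).2.2.1 fun d' hd' => ?_
    obtain ⟨d0, hd00, hk0, hall⟩ := (hLF q hq).2.2.2.2 hc
    have hKq : ∀ d', A.Ker S (q + s • d) d' → A.Ker S q d' := fun d' h =>
      ⟨fun l hl v hv w hw => h.1 l hl v (hWsub l hl hv) w (hWsub l hl hw),
        fun l hl hact v hv => h.2.1 l hl (hAct l hl hact) v (hWsub l hl hv),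
        fun k hk => h.2.2 k (hBt hk)⟩
    -- `d'` is a multiple of `d`
    obtain ⟨c, hc'⟩ := hall d hd
    obtain ⟨c', hc''⟩ := hall d' (hKq d' hd')
    have hcne : c ≠ 0 := by
      rintro rfl
      rw [zero_smul] at hc'
      exact hd0 hc'
    have hdd : d' = (c' / c) • d := by
      rw [hc', hc'', smul_smul, div_mul_cancel₀ _ hcne]
    by_cases hzero : c' / c = 0
    · rw [hdd, hzero, zero_smul]
    exfalso
    -- then `d` is in the kernel
    have hdk : A.Ker S (q + s • d) d := by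
      have e : ∀ x : Fin n → ℝ, x ⬝ᵥ d' = c' / c * (x ⬝ᵥ d) := by
        intro x
        rw [hdd, dotProduct_smul, smul_eq_mul]
      refine ⟨fun l hl v hv w hw => ?_, fun l hl hact v hv => ?_, fun k hk => ?_⟩
      · have := hd'.1 l hl v hv w hw
        rw [e, e] at this
        exact mul_left_cancel₀ hzero this
      · have := hd'.2.1 l hl hact v hv
        rw [e] at this
        exact (mul_eq_zero.1 this).resolve_left hzero
      · have := hd'.2.2 k hk
        rw [e] at this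
        exact (mul_eq_zero.1 this).resolve_left hzero
    rcases hp with ⟨l, hl, w, hw, v, hv, hv', rfl⟩ | ⟨l, hl, w, hw, hact, rfl⟩ | ⟨k, hk, rfl⟩
    · simp only at hp0
      have hvw : A.h v (q + s • d) = A.h w (q + s • d) := by
        rw [A.h_add, A.h_add]; linarith
      have hv'' : v ∈ A.W l (q + s • d) := by
        rw [A.mem_W]
        refine ⟨hv, fun u hu => ?_⟩
        rw [hvw]
        exact (A.mem_W.1 (hWsub l hl hw)).2 u hu
      have := hdk.1 l hl v hv'' w (hWsub l hl hw)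
      rw [this, sub_self, mul_zero, add_zero] at hp0
      exact (sub_pos.2 (A.h_lt_of_notMem hw hv hv')).ne' hp0
    · simp only at hp0
      have hactn : A.Act l (q + s • d) := by
        rw [A.act_iff (hWsub l hl hw), A.h_add]
        exact hp0
      have := hdk.2.1 l hl hactn w (hWsub l hl hw)
      rw [this, mul_zero, add_zero] at hp0
      exact hact ((A.act_iff hw).2 hp0)
    · simp only at hp0
      have hkn : k ∈ A.Bt (q + s • d) := by
        rw [A.mem_Bt, A.bx_add]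
        exact hp0
      have := hdk.2.2 k hkn
      rw [this, mul_zero, add_zero] at hp0
      exact hk (A.mem_Bt.2 hp0)
  · intro hin
    obtain ⟨v, hv⟩ := A.W_nonempty hF l q
    have hv' := hWsub l hl hv
    rw [A.in_iff hv', A.act_iff hv']
    have h0 : 0 ≤ A.h v (q + s • d) := by
      rw [A.h_add]
      refine hweak _ _ fun s' h1 h2 => ?_
      have hs' := (hsame s' h1 h2).1 l hl
      have hv1 : v ∈ A.W l (q + s' • d) := by rw [← hs'.1]; exact hv
      have := (A.in_iff hv1).1 (hs'.2.2.1 hin)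
      rw [A.h_add] at this
      exact this.le
    rcases h0.lt_or_eq with h | h
    · exact Or.inl h
    · exact Or.inr h.symm
  · intro hin
    by_contra hnin
    obtain ⟨v, hv⟩ := A.W_nonempty hF l q
    have hv' := hWsub l hl hv
    have hpos := (A.in_iff hv').1 hin
    have h0 : 0 ≤ -A.h v q + s * (-(A.a v ⬝ᵥ d)) := by
      refine hweak _ _ fun s' h1 h2 => ?_
      have hs' := (hsame s' h1 h2).1 l hl
      have hv1 : v ∈ A.W l (q + s' • d) := by rw [← hs'.1]; exact hv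
      have : ¬ 0 < A.h v (q + s' • d) := by
        rw [← A.in_iff hv1]
        exact fun h => hnin (hs'.2.2.2 h)
      rw [A.h_add] at this
      linarith
    rw [A.h_add] at hpos
    linarith

end Pool.Agent.Helper39.Trans
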