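import Pool.Agent.Helper39.Trans.Defs

/-!
# Hyperplane transversals of families of convex polytopes (MP_549fdb_co)

Dimension `d = D + 1`. The non-vertical hyperplane
`x_d = μ_1 x_1 + ... + μ_{d-1} x_{d-1} + μ_d` is identified with `μ : Fin (D + 1) → ℝ`.
-/

namespace Pool.Agent.Helper39.Trans

open Finset Classical Matrix

/-- A finite family of convex polytopes in `ℝ^(D+1)`, given by their finite sets of vertices: the
`i`-th polytope is the convex hull of `V i`, and every point of `V i` is a vertex of it. -/
structure Polys (D : ℕ) where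
  m : ℕ
  V : Fin m → Finset (Fin (D + 1) → ℝ)
  nonempty : ∀ i, (V i).Nonempty
  extreme : ∀ i, ∀ v ∈ V i, v ∉ convexHull ℝ ((V i : Set (Fin (D + 1) → ℝ)) \ {v})

namespace Polys

variable {D : ℕ}

/-- The height over `x` of the hyperplane with parameters `μ`:
`μ_1 x_1 + ... + μ_{d-1} x_{d-1} + μ_d`. -/
def height (μ x : Fin (D + 1) → ℝ) : ℝ :=
  ∑ j : Fin D, μ j.castSucc * x j.castSucc + μ (Fin.last D)

/-- The hyperplane with parameters `μ`. -/
def hyp (μ : Fin (D + 1) → ℝ) : Set (Fin (D + 1) → ℝ) := {x | x (Fin.last D) = height μ x}

variable (A : Polys D)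

/-- The `i`-th polytope. -/
def poly (i : Fin A.m) : Set (Fin (D + 1) → ℝ) := convexHull ℝ (A.V i : Set (Fin (D + 1) → ℝ))

/-- The total number of vertices. -/
def nvert : ℕ := ∑ i, (A.V i).card

/-- The space of hyperplane transversals: all non-vertical hyperplanes meeting every polytope. -/
def transversals : Set (Fin (D + 1) → ℝ) := {μ | ∀ i, (hyp μ ∩ A.poly i).Nonempty}

/-- The hyperplane `μ` supports the `i`-th polytope: the polytope lies in one of its closed sides
(and meets it, see `contact`). -/
def Supports (μ : Fin (D + 1) → ℝ) (i : Fin A.m) : Prop :=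
  (∀ x ∈ A.poly i, x (Fin.last D) ≤ height μ x) ∨ (∀ x ∈ A.poly i, height μ x ≤ x (Fin.last D))

/-- The face of the `i`-th polytope to which the hyperplane `μ` is tangent; the empty set if the
hyperplane is not tangent to this polytope. -/
def contact (μ : Fin (D + 1) → ℝ) (i : Fin A.m) : Set (Fin (D + 1) → ℝ) :=
  {x | x ∈ hyp μ ∧ x ∈ A.poly i ∧ A.Supports μ i}

/-- The boundary points of the space of transversals tangent to the same faces as `μ`. -/
def level (μ : Fin (D + 1) → ℝ) : Set (Fin (D + 1) → ℝ) :=
  {ν | ν ∈ frontier A.transversals ∧ A.contact ν = A.contact μ}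

/-- The linear faces of the boundary of the space of transversals: the maximal connected sets of
boundary transversals tangent to the same faces of the members of the family. -/
def faces : Set (Set (Fin (D + 1) → ℝ)) :=
  {F | ∃ μ ∈ frontier A.transversals, F = connectedComponentIn (A.level μ) μ}

/-- The index type of the functions: a vertex of a polytope, and a side. -/
abbrev Idx : Type := (Σ i : Fin A.m, {v // v ∈ A.V i}) × Bool

/-- The system of the family: the function of the vertex `v` and the side `true` is
`height μ v - v_d`, and its negative for the side `false`; the box is `|μ_i| ≤ R i`. -/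
def sys (R : Fin (D + 1) → ℝ) : Sys (D + 1) A.Idx (Fin A.m × Bool) (Fin (D + 1) × Bool) where
  grp := fun v => (v.1.1, v.2)
  a := fun v => (if v.2 then (1 : ℝ) else -1) •
    (fun i => if i = Fin.last D then 1 else (v.1.2 : Fin (D + 1) → ℝ) i)
  b := fun v => (if v.2 then (1 : ℝ) else -1) * (-((v.1.2 : Fin (D + 1) → ℝ) (Fin.last D)))
  ba := fun k i => if i = k.1 then (if k.2 then 1 else -1) else 0
  bb := fun k => R k.1

end Polys

/-- The maximal number of linear faces of the boundary of the space of hyperplane transversals of
a family of convex polytopes in `ℝ^(D+1)` with `n` vertices in total. -/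
noncomputable def F (D n : ℕ) : ℕ := sSup {k | ∃ A : Polys D, A.nvert = n ∧ k = A.faces.ncard}

end Pool.Agent.Helper39.Trans
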