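import Pool.Agent.Helper39.Trans.Goals
import Pool.Agent.Helper39.Trans.Poly

/-!
# MP_549fdb_co: further statements to be proved (packets)
-/

namespace Pool.Agent.Helper39.Trans

open Finset Classical Matrix

/-- The gain inequality (own part). -/
def Gain (n : ℕ) (κ : Type) [Fintype κ] : Prop :=
  ∃ C : ℕ, ∀ (ι Λ : Type) [Fintype ι] [Fintype Λ] (A : Sys n ι Λ κ), A.Full → A.GP → A.Bdd →
    ∀ (e : ℕ) (G S : Finset Λ), 2 ≤ e → Disjoint G S →
      (e * (e + 1) + 1) * {q ∈ A.PureSet e G S | Disjoint (A.conf q) S}.ncard ≤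
        e * (e + 1) * {q ∈ A.PureSet e G S | (A.conf q ∩ S).card = 1}.ncard +
        C * ((A.DefSet G S).ncard +
          {q ∈ A.PureSet (e - 1) G S | (A.conf q ∩ S).card ≤ 1}.ncard)

/-- Packet AV: averaging over the subsets. -/
def Averaging : Prop := ∀ (Λ Q : Type) [Fintype Λ] [Fintype Q] (D K : Q → Finset Λ) (s M : ℕ)
  (S : Finset Λ), (∀ q, (D q).card ≤ s) → (∀ q, Disjoint (D q) (K q)) →
    (∀ S' ⊆ S, (univ.filter fun q => D q ⊆ S' ∧ Disjoint (K q) S').card ≤ M) →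
    (univ.filter fun q => D q ⊆ S ∧ (K q ∩ S).card ≤ 1).card ≤ 2 ^ (s + 1) * M

/-- Packet M: the bound for the number of types of a system in general position. -/
def MainBound (n : ℕ) (κ : Type) [Fintype κ] : Prop :=
  ∃ C : ℕ, ∀ (ι Λ : Type) [Fintype ι] [Fintype Λ] (A : Sys n ι Λ κ) (t : Fin n), A.Full → A.GP →
    A.Bdd → A.Vert t → A.Tall t →
      (A.typ '' {q | A.Box q ∧ ∀ l, ¬ A.In l q}).ncard ≤
        C * (Fintype.card ι + 1) ^ (n - 1) * (invAck (Fintype.card ι) + 1)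

/-- Packet T1: the linear faces are not more than the types. -/
def FacesTypes : Prop := ∀ (D : ℕ) (A : Polys D) (R : Fin (D + 1) → ℝ),
  A.faces.Finite ∧ A.faces.ncard ≤ ((A.sys R).typ '' {q | ∀ l, ¬ (A.sys R).In l q}).ncard

/-- The final result. -/
def Final : Prop := ∀ D : ℕ, 1 ≤ D → ∃ C : ℕ, ∀ A : Polys D, 2 ≤ A.nvert →
  A.faces.Finite ∧ A.faces.ncard ≤ C * A.nvert ^ D * invAck A.nvert

/-- Packet T2. -/
def FinalPacket : Prop := ExistsGP → Transfer → FacesTypes →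
  (∀ D : ℕ, 1 ≤ D → MainBound (D + 1) (Fin (D + 1) × Bool)) → Final

end Pool.Agent.Helper39.Trans
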