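import Pool.Agent.Helper39.Trans.Core
import Pool.Agent.Helper39.Trans.Goals2

/-!
# The gain inequality
-/

set_option linter.unusedSectionVars false

namespace Pool.Agent.Helper39.Trans

open Finset Classical Matrix

namespace Sys

variable {n : ℕ} {ι Λ κ : Type} [Fintype ι] [Fintype Λ] [Fintype κ] {A : Sys n ι Λ κ}

/-- Boundedly many edges end at a vertex. -/
theorem mult (hF : A.Full) (hG : A.GP) {F : Finset Λ} {y : Fin n → ℝ}
    (Z : Finset (Fin n → ℝ)) (hZ : ∀ z ∈ Z, A.Edge F z y) : Z.card ≤ 2 ^ (5 * n) := by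
  rcases Z.eq_empty_or_nonempty with rfl | ⟨z0, hz0⟩
  · simp
  have hy : A.Vtx F y := (hZ z0 hz0).vy
  let X : Finset ι := univ.filter fun v =>
    A.grp v ∈ F ∧ v ∈ A.W (A.grp v) y ∧ 2 ≤ (A.W (A.grp v) y).card
  let Iy : Finset Λ := F.filter fun l => A.Act l y
  let code : (Fin n → ℝ) → (Finset ι × Finset Λ) × (Finset Λ × Finset κ) := fun z =>
    ((X.filter fun v => v ∈ A.W (A.grp v) (mid z y), Iy.filter fun l => A.Act l (mid z y)),
      (Iy.filter fun l => A.In l (mid z y), A.Bt (mid z y)))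
  have hcl : ∀ z ∈ Z, (∀ l ∈ F, A.W l (mid z y) ⊆ A.W l y ∧
      (A.Act l (mid z y) → A.Act l y) ∧ (A.In l (mid z y) → A.In l y ∨ A.Act l y) ∧
      (A.In l y → A.In l (mid z y))) ∧ A.Bt (mid z y) ⊆ A.Bt y := by
    intro z hz
    have := (hZ z hz).symm.closure hF
    rw [mid_comm] at this
    exact this
  have hcard : Z.card ≤ ((X.powerset ×ˢ Iy.powerset) ×ˢ (Iy.powerset ×ˢ (A.Bt y).powerset)).card := by
    refine card_le_card_of_injOn code ?_ ?_
    · intro z hz
      simp only [coe_product, Set.mem_prod, mem_coe, mem_powerset, code]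
      exact ⟨⟨filter_subset _ _, filter_subset _ _⟩, filter_subset _ _, (hcl z hz).2⟩
    · intro z hz z' hz' hcode
      have hz := mem_coe.1 hz
      have hz' := mem_coe.1 hz'
      simp only [code, Prod.mk.injEq] at hcode
      obtain ⟨⟨c1, c2⟩, c3, c4⟩ := hcode
      refine Edge.unique hF hG (hZ z hz) (hZ z' hz') ⟨fun l hl => ⟨?_, ?_, ?_⟩, c4⟩
      · by_cases h2 : 2 ≤ (A.W l y).card
        · ext v
          constructor
          · intro hv
            have hvl := (A.mem_W.1 hv).1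
            have hvX : v ∈ X := by
              simp only [X, mem_filter, mem_univ, true_and, hvl]
              exact ⟨hl, ((hcl z hz).1 l hl).1 hv, h2⟩
            have : v ∈ X.filter fun v => v ∈ A.W (A.grp v) (mid z y) := by
              rw [mem_filter, hvl]
              exact ⟨hvX, hv⟩
            rw [c1, mem_filter, hvl] at this
            exact this.2
          · intro hv
            have hvl := (A.mem_W.1 hv).1
            have hvX : v ∈ X := by
              simp only [X, mem_filter, mem_univ, true_and, hvl]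
              exact ⟨hl, ((hcl z' hz').1 l hl).1 hv, h2⟩
            have : v ∈ X.filter fun v => v ∈ A.W (A.grp v) (mid z' y) := by
              rw [mem_filter, hvl]
              exact ⟨hvX, hv⟩
            rw [← c1, mem_filter, hvl] at this
            exact this.2
        · have e1 : A.W l (mid z y) = A.W l y := by
            apply W_eq_of_subset ((hcl z hz).1 l hl).1
            have h3 := A.W_card_pos hF l (mid z y)
            have h4 := card_le_card ((hcl z hz).1 l hl).1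
            omega
          have e2 : A.W l (mid z' y) = A.W l y := by
            apply W_eq_of_subset ((hcl z' hz').1 l hl).1
            have h3 := A.W_card_pos hF l (mid z' y)
            have h4 := card_le_card ((hcl z' hz').1 l hl).1
            omega
          rw [e1, e2]
      · have hm : ∀ z ∈ Z, (A.Act l (mid z y) ↔ l ∈ Iy.filter fun l => A.Act l (mid z y)) := by
          intro z hz
          rw [mem_filter]
          exact ⟨fun h => ⟨mem_filter.2 ⟨hl, ((hcl z hz).1 l hl).2.1 h⟩, h⟩, fun h => h.2⟩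
        rw [hm z hz, hm z' hz', c2]
      · by_cases hact : A.Act l y
        · have hm : ∀ z ∈ Z, (A.In l (mid z y) ↔ l ∈ Iy.filter fun l => A.In l (mid z y)) := by
            intro z hz
            rw [mem_filter]
            exact ⟨fun h => ⟨mem_filter.2 ⟨hl, hact⟩, h⟩, fun h => h.2⟩
          rw [hm z hz, hm z' hz', c3]
        · have hm : ∀ z ∈ Z, (A.In l (mid z y) ↔ A.In l y) := by
            intro z hz
            exact ⟨fun h => (((hcl z hz).1 l hl).2.2.1 h).resolve_right hact,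
              ((hcl z hz).1 l hl).2.2.2⟩
          rw [hm z hz, hm z' hz']
  -- sizes
  have hc := hy.2
  rw [cnt_eq] at hc
  have hcl' : ∀ l, A.cl l y = ((A.W l y).card - 1) + if A.Act l y then 1 else 0 := fun l => rfl
  have hX : X.card ≤ 2 * n := by
    have h1 : X ⊆ (F.filter fun l => 2 ≤ (A.W l y).card).biUnion fun l => A.W l y := by
      intro v hv
      simp only [X, mem_filter, mem_univ, true_and] at hv
      rw [mem_biUnion]
      exact ⟨A.grp v, mem_filter.2 ⟨hv.1, hv.2.2⟩, hv.2.1⟩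
    have h2 : ∑ l ∈ F.filter (fun l => 2 ≤ (A.W l y).card), (A.W l y).card ≤
        ∑ l ∈ F, 2 * A.cl l y := by
      refine (sum_le_sum fun l hl => ?_).trans (sum_le_sum_of_subset (filter_subset _ _))
      have := (mem_filter.1 hl).2
      rw [hcl' l]
      omega
    rw [← mul_sum] at h2
    have h3 := (card_le_card h1).trans card_biUnion_le
    omega
  have hI : Iy.card ≤ n := by
    have h1 : Iy.card ≤ ∑ l ∈ F, A.cl l y := by
      rw [card_eq_sum_ones]
      refine (sum_le_sum fun l hl => ?_).trans (sum_le_sum_of_subset (filter_subset _ _))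
      rw [hcl' l, if_pos (mem_filter.1 hl).2]
      omega
    omega
  have hB : (A.Bt y).card ≤ n := by omega
  refine hcard.trans ?_
  rw [card_product, card_product, card_product, card_powerset, card_powerset, card_powerset,
    ← pow_add, ← pow_add, ← pow_add]
  exact Nat.pow_le_pow_right (by norm_num) (by omega)

end Sys

theorem gain (n : ℕ) (κ : Type) [Fintype κ] (hfin : CountNonpure n κ) : Gain n κ := by
  obtain ⟨C0, hC0⟩ := hfin
  refine ⟨(n * n + n) * 2 ^ (5 * n), ?_⟩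
  intro ι Λ _ _ A hF hG hBd e G S he _
  have hVfin := (hC0 ι Λ A hF hG).1
  have hPfin : ∀ e, (A.PureSet e G S).Finite := fun e => hVfin.subset fun q hq => hq.1
  have hf0 : {q ∈ A.PureSet e G S | Disjoint (A.conf q) S}.Finite :=
    (hPfin e).subset fun q hq => hq.1
  have hf1 : {q ∈ A.PureSet e G S | (A.conf q ∩ S).card = 1}.Finite :=
    (hPfin e).subset fun q hq => hq.1
  have hfD : (A.DefSet G S).Finite := hVfin.subset fun q hq => hq.1
  have hfQ : {q ∈ A.PureSet (e - 1) G S | (A.conf q ∩ S).card ≤ 1}.Finite :=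
    (hPfin (e - 1)).subset fun q hq => hq.1
  rw [Set.ncard_eq_toFinset_card _ hf0, Set.ncard_eq_toFinset_card _ hf1,
    Set.ncard_eq_toFinset_card _ hfD, Set.ncard_eq_toFinset_card _ hfQ]
  set P0 := hf0.toFinset with hP0
  set P1 := hf1.toFinset with hP1
  set DD := hfD.toFinset with hDD
  set QQ := hfQ.toFinset with hQQ
  have mP0 : ∀ z, z ∈ P0 ↔ z ∈ A.PureSet e G S ∧ Disjoint (A.conf z) S := fun z => by
    rw [hP0, Set.Finite.mem_toFinset]; rfl
  have mP1 : ∀ z, z ∈ P1 ↔ z ∈ A.PureSet e G S ∧ (A.conf z ∩ S).card = 1 := fun z => by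
    rw [hP1, Set.Finite.mem_toFinset]; rfl
  have mD : ∀ z, z ∈ DD ↔ z ∈ A.DefSet G S := fun z => by
    rw [hDD, Set.Finite.mem_toFinset]
  have mQ : ∀ z, z ∈ QQ ↔ z ∈ A.PureSet (e - 1) G S ∧ (A.conf z ∩ S).card ≤ 1 := fun z => by
    rw [hQQ, Set.Finite.mem_toFinset]; rfl
  rcases P0.eq_empty_or_nonempty with hemp | ⟨zz, hzz⟩
  · rw [hemp]; simp
  have hen : e + 1 ≤ n := by
    have := (Sys.pv_of_mem hF hG ((mP0 zz).1 hzz).1).jgc
    omega
  -- the ends of the edges
  have hpv : ∀ z ∈ P0, Sys.PV e G S z A := fun z hz => Sys.pv_of_mem hF hG ((mP0 z).1 hz).1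
  have hex : ∀ (σ : ℝ), σ ≠ 0 → ∀ z l, ∃ y, z ∈ P0 → A.Act l z → Sys.Drop (G ∪ S) z y l σ A := by
    intro σ hσ z l
    by_cases h : z ∈ P0 ∧ A.Act l z
    · have hz := hpv z h.1
      obtain ⟨y, hy⟩ := Sys.exists_drop hF hG hBd hz.vtx
        (mem_union_right _ (hz.ig (A.mem_Ig.2 h.2))) h.2 hσ
      exact ⟨y, fun _ _ => hy⟩
    · exact ⟨z, fun h1 h2 => absurd ⟨h1, h2⟩ h⟩
  choose yi hyi using hex 1 one_ne_zero
  choose yo hyo using hex (-1) (by norm_num)
  -- all (vertex, active group) pairs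
  set E : Finset (Σ _ : Fin n → ℝ, Λ) := P0.sigma fun z => A.Ig z with hE
  have mE : ∀ x, x ∈ E ↔ x.1 ∈ P0 ∧ A.Act x.2 x.1 := fun x => by
    rw [hE, mem_sigma, Sys.mem_Ig]
  have hEc : E.card = (e + 1) * P0.card := by
    rw [hE, card_sigma, sum_congr rfl fun z hz => (hpv z hz).igc, sum_const, smul_eq_mul, mul_comm]
  set Bi := E.filter fun x => yi x.1 x.2 ∈ DD ∪ QQ with hBi
  set Bo := E.filter fun x => yo x.1 x.2 ∈ DD ∪ QQ with hBo
  -- multiplicity
  have hmult : ∀ (f : (Fin n → ℝ) → Λ → (Fin n → ℝ)),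
      (∀ x ∈ E, A.Edge (G ∪ S) x.1 (f x.1 x.2)) →
      (E.filter fun x => f x.1 x.2 ∈ DD ∪ QQ).card ≤ (e + 1) * 2 ^ (5 * n) * (DD ∪ QQ).card := by
    intro f hf
    have h1 : (E.filter fun x => f x.1 x.2 ∈ DD ∪ QQ) ⊆ (DD ∪ QQ).biUnion fun y =>
        (P0.filter fun z => A.Edge (G ∪ S) z y).sigma fun z => A.Ig z := by
      intro x hx
      obtain ⟨h2, h3⟩ := mem_filter.1 hx
      rw [mem_biUnion]
      refine ⟨_, h3, ?_⟩
      rw [mem_sigma, mem_filter, Sys.mem_Ig]
      exact ⟨⟨((mE x).1 h2).1, hf x h2⟩, ((mE x).1 h2).2⟩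
    refine (card_le_card h1).trans (card_biUnion_le.trans ?_)
    have h4 : ∀ y ∈ DD ∪ QQ, ((P0.filter fun z => A.Edge (G ∪ S) z y).sigma fun z => A.Ig z).card ≤
        (e + 1) * 2 ^ (5 * n) := by
      intro y _
      rw [card_sigma, sum_congr rfl fun z hz => (hpv z (mem_filter.1 hz).1).igc, sum_const,
        smul_eq_mul, mul_comm]
      exact Nat.mul_le_mul_left _ (Sys.mult hF hG _ fun z hz => (mem_filter.1 hz).2)
    refine (sum_le_sum h4).trans ?_
    rw [sum_const, smul_eq_mul, mul_comm]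
  have hBic : Bi.card ≤ (e + 1) * 2 ^ (5 * n) * (DD ∪ QQ).card :=
    hmult yi fun x hx => (hyi x.1 x.2 ((mE x).1 hx).1 ((mE x).1 hx).2).edge
  have hBoc : Bo.card ≤ (e + 1) * 2 ^ (5 * n) * (DD ∪ QQ).card :=
    hmult yo fun x hx => (hyo x.1 x.2 ((mE x).1 hx).1 ((mE x).1 hx).2).edge
  -- good inward ends
  have hin : ∀ x ∈ E, x ∉ Bi → ∃ p, Sys.Inw e G S x.1 (yi x.1 x.2) x.2 p A := by
    intro x hx hxB
    obtain ⟨hx1, hx2⟩ := (mE x).1 hx
    have hd := hyi x.1 x.2 hx1 hx2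
    have hn : yi x.1 x.2 ∉ DD ∪ QQ := fun h => hxB (mem_filter.2 ⟨hx, h⟩)
    rw [mem_union, not_or, mD, mQ] at hn
    have hlev := ((mP0 x.1).1 hx1).2
    rcases Sys.drop_class hF hG (by omega) (hpv _ hx1) hx2 hd with h | h | ⟨h, p, h1, h2, h3, h4⟩
    · exact absurd h hn.1
    · exfalso
      apply hn.2
      refine ⟨h, ?_⟩
      have := card_le_card (Sys.conf_end hF (hpv _ hx1) hlev hd)
      simpa using this
    · exact ⟨p, hd, hpv _ hx1, hlev, h, hx2, h1, h2, h3, h4⟩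
  have hout : ∀ x ∈ E, x ∉ Bo → ∃ p, Sys.Outw e G S x.1 (yo x.1 x.2) x.2 p A := by
    intro x hx hxB
    obtain ⟨hx1, hx2⟩ := (mE x).1 hx
    have hd := hyo x.1 x.2 hx1 hx2
    have hn : yo x.1 x.2 ∉ DD ∪ QQ := fun h => hxB (mem_filter.2 ⟨hx, h⟩)
    rw [mem_union, not_or, mD, mQ] at hn
    have hlev := ((mP0 x.1).1 hx1).2
    rcases Sys.drop_class hF hG (by omega) (hpv _ hx1) hx2 hd with h | h | ⟨h, p, h1, h2, h3, h4⟩
    · exact absurd h hn.1
    · exfalso
      apply hn.2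
      refine ⟨h, ?_⟩
      have := card_le_card (Sys.conf_end hF (hpv _ hx1) hlev hd)
      simpa using this
    · exact ⟨p, hd, hpv _ hx1, hlev, h, hx2, h1, h2, h3, h4⟩
  have hne : Nonempty Λ := by
    have h1 := (hpv zz hzz).igc
    obtain ⟨l, _⟩ := card_pos.1 (by omega : 0 < (A.Ig zz).card)
    exact ⟨l⟩
  set E' := E \ Bi with hE'
  have mE' : ∀ x, x ∈ E' ↔ x ∈ E ∧ x ∉ Bi := fun x => by rw [hE', mem_sdiff]
  choose! pp hpp using fun x (hx : x ∈ E') => hin x ((mE' x).1 hx).1 ((mE' x).1 hx).2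
  set Ar : (Fin n → ℝ) → Finset (Σ _ : Fin n → ℝ, Λ) := fun y =>
    E'.filter fun x => yi x.1 x.2 = y with hAr
  have hmaps : ∀ x ∈ E', yi x.1 x.2 ∈ P1 := by
    intro x hx
    have h := hpp x hx
    rw [mP1]
    exact ⟨h.py.mem, by rw [h.conf hF, card_singleton]⟩
  have hsum : E'.card = ∑ y ∈ P1, (Ar y).card :=
    card_eq_sum_card_fiberwise hmaps
  have hEs : E.card = E'.card + Bi.card :=
    (card_sdiff_add_card_eq_card (filter_subset _ _)).symm
  have hinj : ∀ y, Set.InjOn pp (Ar y : Set (Σ _ : Fin n → ℝ, Λ)) := by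
    intro y x hx x' hx' h
    obtain ⟨h1, h2⟩ := mem_filter.1 (mem_coe.1 hx)
    obtain ⟨h1', h2'⟩ := mem_filter.1 (mem_coe.1 hx')
    have i1 := hpp x h1
    have i2 := hpp x' h1'
    rw [h2] at i1
    rw [h2', ← h] at i2
    obtain ⟨j1, j2⟩ := Sys.Inw.inj hF hG i1 i2
    rcases x with ⟨x1, x2⟩
    rcases x' with ⟨x1', x2'⟩
    simp only at j1 j2
    rw [j1, j2]
  have hmapIg : ∀ y, ∀ x ∈ Ar y, pp x ∈ A.Ig y := by
    intro y x hx
    obtain ⟨h1, h2⟩ := mem_filter.1 hx
    have i1 := hpp x h1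
    rw [h2] at i1
    rw [i1.igy]
    exact mem_insert_self _ _
  have hArc : ∀ y ∈ P1, (Ar y).card ≤ e + 1 := by
    intro y hy
    have h1 := (Sys.pv_of_mem hF hG ((mP1 y).1 hy).1).igc
    rw [← h1]
    exact card_le_card_of_injOn pp (hmapIg y) (hinj y)
  -- unsaturated vertices
  set U := P1.filter fun y => (Ar y).card ≤ e with hU
  set V := P1.filter fun y => ¬ (Ar y).card ≤ e with hV
  have hUV : U.card + V.card = P1.card := card_filter_add_card_filter_not _
  have hsplit : ∑ y ∈ P1, (Ar y).card = ∑ y ∈ U, (Ar y).card + ∑ y ∈ V, (Ar y).card :=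
    (sum_filter_add_sum_filter_not _ _ _).symm
  have hUs : ∑ y ∈ U, (Ar y).card ≤ e * U.card := by
    calc ∑ y ∈ U, (Ar y).card ≤ ∑ y ∈ U, e := sum_le_sum fun y hy => (mem_filter.1 hy).2
      _ = e * U.card := by rw [sum_const, smul_eq_mul, mul_comm]
  have hVs : ∑ y ∈ V, (Ar y).card ≤ (e + 1) * V.card := by
    calc ∑ y ∈ V, (Ar y).card ≤ ∑ y ∈ V, (e + 1) :=
          sum_le_sum fun y hy => hArc y (mem_filter.1 hy).1
      _ = (e + 1) * V.card := by rw [sum_const, smul_eq_mul, mul_comm]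
  -- every vertex of level zero is bad or sees an unsaturated vertex
  have hcov : P0 ⊆ Bi.image Sigma.fst ∪ (Bo.image Sigma.fst ∪ (U.biUnion Ar).image Sigma.fst) := by
    intro z hz
    by_contra hno
    rw [mem_union, mem_union, not_or, not_or] at hno
    obtain ⟨n1, n2, n3⟩ := hno
    have hmem : ∀ l ∈ A.Ig z, (⟨z, l⟩ : Σ _ : Fin n → ℝ, Λ) ∈ E := fun l hl =>
      (mE _).2 ⟨hz, A.mem_Ig.1 hl⟩
    have hb1 : ∀ l ∈ A.Ig z, (⟨z, l⟩ : Σ _ : Fin n → ℝ, Λ) ∉ Bi := fun l _ h =>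
      n1 (mem_image.2 ⟨_, h, rfl⟩)
    have hb2 : ∀ l ∈ A.Ig z, (⟨z, l⟩ : Σ _ : Fin n → ℝ, Λ) ∉ Bo := fun l _ h =>
      n2 (mem_image.2 ⟨_, h, rfl⟩)
    have hE1 : ∀ l ∈ A.Ig z, (⟨z, l⟩ : Σ _ : Fin n → ℝ, Λ) ∈ E' := fun l hl =>
      (mE' _).2 ⟨hmem l hl, hb1 l hl⟩
    choose! po hpo using fun l (hl : l ∈ A.Ig z) => hout ⟨z, l⟩ (hmem l hl) (hb2 l hl)
    refine Sys.no_saturated he hF hG (hpv z hz) (yi z) (yo z) (fun l => pp ⟨z, l⟩) po
      (fun l hl => hpp ⟨z, l⟩ (hE1 l hl)) hpo fun l hl q hq => ?_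
    -- saturation
    have hyP : yi z l ∈ P1 := hmaps _ (hE1 l hl)
    have hsat : e + 1 ≤ (Ar (yi z l)).card := by
      by_contra hlt
      apply n3
      rw [mem_image]
      refine ⟨⟨z, l⟩, ?_, rfl⟩
      rw [mem_biUnion]
      exact ⟨yi z l, mem_filter.2 ⟨hyP, by omega⟩, mem_filter.2 ⟨hE1 l hl, rfl⟩⟩
    have hsurj := surj_on_of_inj_on_of_card_le (s := Ar (yi z l)) (t := A.Ig (yi z l))
      (fun x _ => pp x) (fun x hx => hmapIg _ x hx)
      (fun x x' hx hx' h => hinj _ (mem_coe.2 hx) (mem_coe.2 hx') h)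
      (by rw [(Sys.pv_of_mem hF hG ((mP1 _).1 hyP).1).igc]; exact hsat) q hq
    obtain ⟨x, hx, hxq⟩ := hsurj
    obtain ⟨h1, h2⟩ := mem_filter.1 hx
    have i1 := hpp x h1
    rw [h2] at i1
    have i2 : Sys.Inw e G S z (yi z l) l (pp ⟨z, l⟩) A := hpp ⟨z, l⟩ (hE1 l hl)
    have hll : x.2 = l := by
      have c1 := i1.conf hF
      have c2 := i2.conf hF
      rw [c1] at c2
      exact singleton_injective c2
    rw [hll] at i1
    refine ⟨x.1, ?_⟩
    have hq' : q = pp x := hxq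
    rw [hq']
    exact i1
  have hN0 : P0.card ≤ Bi.card + (Bo.card + ∑ y ∈ U, (Ar y).card) := by
    refine (card_le_card hcov).trans ((card_union_le _ _).trans ?_)
    refine Nat.add_le_add card_image_le ((card_union_le _ _).trans ?_)
    exact Nat.add_le_add card_image_le (card_image_le.trans card_biUnion_le)
  -- arithmetic
  have hDQ : (DD ∪ QQ).card ≤ DD.card + QQ.card := card_union_le _ _
  set K := 2 ^ (5 * n) with hK
  set AU := ∑ y ∈ U, (Ar y).card with hAU
  set AV := ∑ y ∈ V, (Ar y).card with hAV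
  have e1 : (e + 1) * P0.card = AU + AV + Bi.card := by
    rw [← hEc, hEs, hsum, hsplit]
  have e2 : e * ((e + 1) * P0.card) ≤ e * AU + e * ((e + 1) * V.card) + e * Bi.card := by
    rw [e1, Nat.mul_add, Nat.mul_add]
    have := Nat.mul_le_mul_left e hVs
    omega
  have e3 : (e + 1) * AU ≤ (e + 1) * (e * U.card) := Nat.mul_le_mul_left _ hUs
  have e4 : (e * (e + 1) + 1) * P0.card ≤ e * (e + 1) * P1.card + ((e + 1) * Bi.card + Bo.card) := by
    rw [← hUV]
    nlinarith
  have e5 : (e + 1) * Bi.card + Bo.card ≤ (n * n + n) * K * (DD.card + QQ.card) := by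
    have h1 : (e + 1) * Bi.card ≤ (e + 1) * ((e + 1) * K * (DD ∪ QQ).card) :=
      Nat.mul_le_mul_left _ hBic
    have h2 : (e + 1) * ((e + 1) * K * (DD ∪ QQ).card) + (e + 1) * K * (DD ∪ QQ).card =
        ((e + 1) * (e + 1) + (e + 1)) * K * (DD ∪ QQ).card := by ring
    have h3 : (e + 1) * (e + 1) + (e + 1) ≤ n * n + n :=
      Nat.add_le_add (Nat.mul_le_mul hen hen) hen
    have h4 : ((e + 1) * (e + 1) + (e + 1)) * K * (DD ∪ QQ).card ≤
        (n * n + n) * K * (DD.card + QQ.card) :=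
      Nat.mul_le_mul (Nat.mul_le_mul_right _ h3) hDQ
    omega
  omega

end Pool.Agent.Helper39.Trans
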