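import Pool.Agent.Helper39.Trans.Defs

/-!
# Systems of groups of affine functions (MP_549fdb_co): the statements to be proved (packets)
-/

namespace Pool.Agent.Helper39.Trans

open Finset Classical Matrix

namespace Sys

variable {n : ℕ} {ι Λ κ : Type} [Fintype ι] [Fintype Λ] [Fintype κ] (A : Sys n ι Λ κ)

/-- The direction `d` preserves all constraints tight at `q` for the subfamily `S`. -/
def Ker (S : Finset Λ) (q d : Fin n → ℝ) : Prop :=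
  (∀ l ∈ S, ∀ v ∈ A.W l q, ∀ w ∈ A.W l q, A.a v ⬝ᵥ d = A.a w ⬝ᵥ d) ∧
  (∀ l ∈ S, A.Act l q → ∀ v ∈ A.W l q, A.a v ⬝ᵥ d = 0) ∧
  (∀ k ∈ A.Bt q, A.ba k ⬝ᵥ d = 0)

/-- `x` and `y` have the same state with respect to the subfamily `S`. -/
def Same (S : Finset Λ) (x y : Fin n → ℝ) : Prop :=
  (∀ l ∈ S, A.W l x = A.W l y ∧ (A.Act l x ↔ A.Act l y) ∧ (A.In l x ↔ A.In l y)) ∧ A.Bt x = A.Bt y

/-- Vertical coordinate `t`: the functions of a group have the same derivative `1` or `-1`. -/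
def Vert (t : Fin n) : Prop :=
  ∃ sg : Λ → ℝ, (∀ l, sg l = 1 ∨ sg l = -1) ∧ ∀ v, A.a v t = sg (A.grp v)

/-- The box is so high that it contains all zeros of the functions on its vertical lines. -/
def Tall (t : Fin n) : Prop :=
  ∀ q q', A.Box q → (∀ i, i ≠ t → q' i = q i) → (∃ v, A.h v q' = 0) → A.Box q'

end Sys

/-- Linear algebra facts at a point of the box. -/
def LinFacts (n : ℕ) (κ : Type) [Fintype κ] : Prop :=
  ∀ (ι Λ : Type) [Fintype ι] [Fintype Λ] (A : Sys n ι Λ κ), A.Full → A.GP →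
    ∀ (S : Finset Λ) (q : Fin n → ℝ), A.Box q →
      A.cnt S q ≤ n ∧
      (A.cnt S q = n → ∀ d, A.Ker S q d → d = 0) ∧
      ((∀ d, A.Ker S q d → d = 0) → A.cnt S q = n) ∧
      (∀ (ρ : ι → ℝ) (τ : κ → ℝ), ∃ d : Fin n → ℝ,
        (∀ l ∈ S, ∀ v ∈ A.W l q, ∀ w ∈ A.W l q, A.a v ⬝ᵥ d - A.a w ⬝ᵥ d = ρ v - ρ w) ∧
        (∀ l ∈ S, A.Act l q → ∀ v ∈ A.W l q, A.a v ⬝ᵥ d = ρ v) ∧
        (∀ k ∈ A.Bt q, A.ba k ⬝ᵥ d = τ k)) ∧
      (A.cnt S q + 1 = n → ∃ d, d ≠ 0 ∧ A.Ker S q d ∧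
        ∀ d', A.Ker S q d' → ∃ c : ℝ, d' = c • d)

/-- Along a direction preserving the tight constraints of a point of an edge one reaches a vertex,
and the state is constant before. -/
def EdgeExit (n : ℕ) (κ : Type) [Fintype κ] : Prop :=
  ∀ (ι Λ : Type) [Fintype ι] [Fintype Λ] (A : Sys n ι Λ κ), A.Full → A.GP → A.Bdd →
    ∀ (S : Finset Λ) (q d : Fin n → ℝ), A.Box q → A.cnt S q + 1 = n → d ≠ 0 → A.Ker S q d →
      ∃ s : ℝ, 0 < s ∧ A.Vtx S (q + s • d) ∧ (∀ s', 0 ≤ s' → s' < s → A.Same S q (q + s' • d)) ∧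
        (∀ l ∈ S, A.W l q ⊆ A.W l (q + s • d) ∧ (A.Act l q → A.Act l (q + s • d)) ∧
          (A.In l q → A.In l (q + s • d) ∨ A.Act l (q + s • d)) ∧
          (A.In l (q + s • d) → A.In l q)) ∧ A.Bt q ⊆ A.Bt (q + s • d)

/-- Packet A: Davenport-Schinzel sequences of order 3. -/
def DS3 : Prop := ∃ C : ℕ, ∀ (σ : Type) (L : List σ), L.IsChain (· ≠ ·) → Alt5Free L →
  L.length ≤ C * L.toFinset.card * (invAck L.toFinset.card + 1)

/-- Packet B: certificates of vertices. -/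
def CertCore (n : ℕ) (κ : Type) [Fintype κ] : Prop :=
  ∀ (ι Λ : Type) [Fintype ι] [Fintype Λ] (A : Sys n ι Λ κ), A.Full → A.GP →
    ∃ (T : Bool → (Fin n → ℝ) → Finset ι) (TB : Bool → (Fin n → ℝ) → Finset κ),
      (∀ q, A.Vtx univ q →
        (∀ s, ∀ v ∈ T s q, v ∈ A.W (A.grp v) q ∧ A.grp v ∈ A.Dg q) ∧
        (∀ v, v ∈ A.W (A.grp v) q → A.grp v ∈ A.Dg q → (v ∈ T true q ↔ v ∉ T false q)) ∧
        (∀ s, ∀ l ∈ A.Dg q, l ∉ A.Ig q → (T s q ∩ A.fib l).Nonempty)) ∧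
      (∀ s q q', A.Vtx univ q → A.Vtx univ q' → A.Ig q = A.Ig q' → A.Dg q = A.Dg q' →
        T s q = T s q' → TB s q = TB s q' → q = q')

/-- Packet C1: vertices with `n - 1` defining groups. -/
def CountDef (n : ℕ) (κ : Type) [Fintype κ] : Prop :=
  ∃ C : ℕ, ∀ (ι Λ : Type) [Fintype ι] [Fintype Λ] (A : Sys n ι Λ κ), A.Full → A.GP →
    ∀ G S : Finset Λ, Disjoint G S → (A.DefSet G S).Finite ∧
      (A.DefSet G S).ncard ≤ C * (∏ g ∈ G, (A.fib g).card) * A.size S ^ (n - 1 - G.card)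

/-- Packet C2: pure vertices with a given active group. -/
def CountAct (n : ℕ) (κ : Type) [Fintype κ] : Prop :=
  ∃ C : ℕ, ∀ (ι Λ : Type) [Fintype ι] [Fintype Λ] (A : Sys n ι Λ κ), A.Full → A.GP →
    ∀ (e : ℕ) (G S : Finset Λ) (g0 : Λ), Disjoint G S →
      (A.PureSet e G S).Finite ∧
      {q ∈ A.PureSet e G S | g0 ∈ A.Ig q}.ncard ≤
        C * (∏ g ∈ G, (A.fib g).card) * A.size S ^ (n - 1 - G.card)

/-- Packet C3: all vertices with fewer than `n` defining groups. -/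
def CountNonpure (n : ℕ) (κ : Type) [Fintype κ] : Prop :=
  ∃ C : ℕ, ∀ (ι Λ : Type) [Fintype ι] [Fintype Λ] (A : Sys n ι Λ κ), A.Full → A.GP →
    {q | A.Vtx univ q}.Finite ∧
    {q | A.Vtx univ q ∧ (A.Dg q).card < n}.ncard ≤ C * (Fintype.card ι + 1) ^ (n - 1)

/-- Packet D: pure vertices with two active groups (vertical strips, Davenport-Schinzel). -/
def StripBound (n : ℕ) (κ : Type) [Fintype κ] : Prop :=
  ∃ C : ℕ, ∀ (ι Λ : Type) [Fintype ι] [Fintype Λ] (A : Sys n ι Λ κ) (t : Fin n), A.Full → A.GP →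
    A.Bdd → A.Vert t → ∀ G S : Finset Λ, Disjoint G S →
      {q ∈ A.PureSet 1 G S | Disjoint (A.conf q) S}.ncard ≤
        C * (invAck (Fintype.card ι) + 1) * (A.DefSet G S).ncard

/-- Packet E: pure vertices with one active group. -/
def ZeroBound (n : ℕ) (κ : Type) [Fintype κ] : Prop :=
  ∃ C : ℕ, ∀ (ι Λ : Type) [Fintype ι] [Fintype Λ] (A : Sys n ι Λ κ) (t : Fin n), A.Full → A.GP →
    A.Vert t → A.Tall t → 2 ≤ n →
      {q ∈ A.PureSet 0 ∅ univ | ∀ l, ¬ A.In l q}.ncard ≤ C * (A.DefSet ∅ univ).ncard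

/-- Packet F: the classes (types of points) are bounded by the vertices. -/
def ClassBound (n : ℕ) (κ : Type) [Fintype κ] : Prop :=
  ∃ C : ℕ, ∀ (ι Λ : Type) [Fintype ι] [Fintype Λ] (A : Sys n ι Λ κ), A.Full → A.GP → A.Bdd →
    (A.typ '' {q | A.Box q ∧ ∀ l, ¬ A.In l q}).ncard ≤
      C * {q | A.Vtx univ q ∧ ∀ l, ¬ A.In l q}.ncard

/-- Packet G: generic perturbations are in general position. -/
def ExistsGP : Prop := ∀ (n : ℕ) (ι Λ κ : Type) [Fintype ι] [Fintype Λ] [Fintype κ]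
  (A : Sys n ι Λ κ) (ε : ℝ), 0 < ε → ∃ (δ : ι → ℝ) (η : κ → ℝ),
    (∀ v, -ε < δ v ∧ δ v < 0) ∧ (∀ k, 0 < η k ∧ η k < ε) ∧ (A.shift δ η).GP

/-- Packet H: small negative perturbations do not decrease the number of types. -/
def Transfer : Prop := ∀ (n : ℕ) (ι Λ κ : Type) [Fintype ι] [Fintype Λ] [Fintype κ]
  (A : Sys n ι Λ κ), A.Full → ∀ P : Finset (Fin n → ℝ),
    (∀ p ∈ P, (∀ k, 0 < A.bx k p) ∧ ∀ l, ¬ A.In l p) → Set.InjOn A.typ P →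
    ∃ ε : ℝ, 0 < ε ∧ ∀ (δ : ι → ℝ) (η : κ → ℝ), (∀ v, -ε < δ v ∧ δ v < 0) →
      (∀ k, 0 < η k ∧ η k < ε) → ∃ f : (Fin n → ℝ) → (Fin n → ℝ),
        (∀ p ∈ P, (A.shift δ η).Box (f p) ∧ ∀ l, ¬ (A.shift δ η).In l (f p)) ∧
        Set.InjOn (fun p => (A.shift δ η).typ (f p)) P

/-- The recursion (own part). -/
def Recursion : Prop := ∀ (s : ℕ) (ε : ℝ), 0 < ε → ∃ C : ℝ, 0 < C ∧
  ∀ (Λ Q : Type) [Fintype Λ] [Fintype Q] (D K : Q → Finset Λ) (k : Λ → ℝ) (B : ℝ), 0 ≤ B →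
    (∀ l, 0 ≤ k l) → (∀ q, (D q).card = s + 1) → (∀ q, Disjoint (D q) (K q)) →
    (∀ S : Finset Λ, (1 + ε) * (univ.filter fun q => D q ⊆ S ∧ Disjoint (K q) S).card ≤
      (univ.filter fun q => D q ⊆ S ∧ (K q ∩ S).card = 1).card + B * (∑ l ∈ S, k l) ^ s) →
    (∀ S : Finset Λ, ∀ g ∈ S,
      ((univ.filter fun q => (D q ⊆ S ∧ Disjoint (K q) S) ∧ g ∈ D q).card : ℝ) ≤
        B * (∑ l ∈ S, k l) ^ s) →
    ∀ S : Finset Λ, ((univ.filter fun q => D q ⊆ S ∧ Disjoint (K q) S).card : ℝ) ≤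
      C * B * (∑ l ∈ S, k l) ^ s

end Pool.Agent.Helper39.Trans
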