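import Pool.Agent.Helper39.Trans.Seg

/-!
# Pure vertices
-/

set_option linter.unusedSectionVars false

namespace Pool.Agent.Helper39.Trans

open Finset Classical Matrix

namespace Sys

variable {n : ℕ} {ι Λ κ : Type} [Fintype ι] [Fintype Λ] [Fintype κ] (A : Sys n ι Λ κ)

/-- The contribution of a group. -/
noncomputable def cl (l : Λ) (q : Fin n → ℝ) : ℕ := ((A.W l q).card - 1) + if A.Act l q then 1 else 0

theorem mem_Ig {q : Fin n → ℝ} {l : Λ} : l ∈ A.Ig q ↔ A.Act l q := by simp [Ig]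

theorem mem_Jg {q : Fin n → ℝ} {l : Λ} : l ∈ A.Jg q ↔ 2 ≤ (A.W l q).card := by simp [Jg]

theorem mem_Dg {q : Fin n → ℝ} {l : Λ} : l ∈ A.Dg q ↔ A.Act l q ∨ 2 ≤ (A.W l q).card := by
  simp [Dg, mem_Ig, mem_Jg]

theorem cnt_eq (S : Finset Λ) (q : Fin n → ℝ) :
    A.cnt S q = ∑ l ∈ S, A.cl l q + (A.Bt q).card := by
  simp only [cnt, cl, sum_add_distrib, card_filter]

theorem cl_pos {q : Fin n → ℝ} {l : Λ} : 0 < A.cl l q ↔ l ∈ A.Dg q := by
  rw [mem_Dg, cl]
  split_ifs with h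
  · simp [h]
  · simp only [h, false_or, add_zero]
    omega

theorem vtx_iff (hF : A.Full) (hG : A.GP) (S : Finset Λ) (q : Fin n → ℝ) :
    A.Vtx S q ↔ A.Vtx univ q ∧ A.Dg q ⊆ S := by
  constructor
  · rintro ⟨hb, hc⟩
    have h1 := (linFacts n κ ι Λ A hF hG univ q hb).1
    have h2 : ∑ l ∈ S, A.cl l q + ∑ l ∈ univ \ S, A.cl l q = ∑ l, A.cl l q := by
      rw [add_comm]
      exact sum_sdiff (subset_univ S)
    rw [cnt_eq] at h1 hc
    have h3 : ∑ l ∈ univ \ S, A.cl l q = 0 := by omega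
    refine ⟨⟨hb, ?_⟩, ?_⟩
    · rw [cnt_eq]; omega
    · intro l hl
      by_contra hlS
      have := (sum_eq_zero_iff.1 h3) l (by simp [hlS])
      have := A.cl_pos.2 hl
      omega
  · rintro ⟨⟨hb, hc⟩, hD⟩
    refine ⟨hb, ?_⟩
    rw [cnt_eq] at hc ⊢
    refine Eq.trans ?_ hc
    congr 1
    refine sum_subset (subset_univ _) fun l _ hl => ?_
    by_contra h
    exact hl (hD (A.cl_pos.1 (Nat.pos_of_ne_zero h)))

/-- The structure of pure vertices. -/
theorem pure_facts (hF : A.Full) {q : Fin n → ℝ} (hq : A.Vtx univ q) (hD : (A.Dg q).card = n) :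
    (∀ l ∈ A.Ig q, (A.W l q).card = 1) ∧ (∀ l ∈ A.Jg q, (A.W l q).card = 2 ∧ ¬ A.Act l q) ∧
      A.Bt q = ∅ := by
  have hc := hq.2
  rw [cnt_eq] at hc
  have h1 : ∑ l, A.cl l q = ∑ l ∈ A.Dg q, A.cl l q := by
    symm
    refine sum_subset (subset_univ _) fun l _ hl => ?_
    by_contra h
    exact hl (A.cl_pos.1 (Nat.pos_of_ne_zero h))
  have h2 : ∑ l ∈ A.Dg q, A.cl l q = ∑ l ∈ A.Dg q, (A.cl l q - 1) + (A.Dg q).card := by
    rw [card_eq_sum_ones, ← sum_add_distrib]
    refine sum_congr rfl fun l hl => ?_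
    have := A.cl_pos.2 hl
    omega
  have h3 : ∑ l ∈ A.Dg q, (A.cl l q - 1) = 0 := by omega
  have h4 : (A.Bt q).card = 0 := by omega
  have h5 : ∀ l ∈ A.Dg q, A.cl l q = 1 := by
    intro l hl
    have := (sum_eq_zero_iff.1 h3) l hl
    have := A.cl_pos.2 hl
    omega
  refine ⟨fun l hl => ?_, fun l hl => ?_, card_eq_zero.1 h4⟩
  · have h6 := h5 l (mem_union_left _ hl)
    have h7 := A.W_card_pos hF l q
    rw [cl, if_pos (A.mem_Ig.1 hl)] at h6
    omega
  · have h6 := h5 l (mem_union_right _ hl)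
    have h7 := A.mem_Jg.1 hl
    rw [cl] at h6
    split_ifs at h6 with h8
    · omega
    · exact ⟨by omega, h8⟩

theorem W_card_one (hF : A.Full) {q : Fin n → ℝ} {l : Λ} (hl : l ∉ A.Jg q) :
    (A.W l q).card = 1 := by
  have h1 := A.W_card_pos hF l q
  rw [mem_Jg] at hl
  omega

theorem mem_conf {q : Fin n → ℝ} {l : Λ} : l ∈ A.conf q ↔ l ∉ A.Dg q ∧ A.In l q := by simp [conf]

theorem not_In_of_act {q : Fin n → ℝ} {l : Λ} (h : A.Act l q) : ¬ A.In l q := by
  obtain ⟨v, hv, h0⟩ := h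
  intro hin
  have := (A.in_iff hv).1 hin
  linarith

variable {A}

/-- An edge leaving the pure vertex `z` by dropping the active group `l`; `σ` is the sign of the
functions of the group `l` on the edge. -/
structure Drop (S : Finset Λ) (z y : Fin n → ℝ) (l : Λ) (σ : ℝ) (A : Sys n ι Λ κ) : Prop where
  edge : A.Edge S z y
  W : ∀ l' ∈ S, A.W l' (mid z y) = A.W l' z
  Bt : A.Bt (mid z y) = A.Bt z
  other : ∀ l' ∈ S, l' ≠ l → (A.Act l' (mid z y) ↔ A.Act l' z) ∧ (A.In l' (mid z y) ↔ A.In l' z)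
  self : ∀ v ∈ A.W l z, 0 < σ * A.h v (mid z y)

theorem Drop.h_end {S : Finset Λ} {z y : Fin n → ℝ} {l : Λ} {σ : ℝ} (h : Drop S z y l σ A)
    (hact : A.Act l z) {v : ι} (hv : v ∈ A.W l z) : 0 < σ * A.h v y := by
  have h1 := h.self v hv
  rw [mid, h_seg, A.h_eq_zero_of_act hact hv] at h1
  nlinarith

theorem Drop.not_act_end {S : Finset Λ} {z y : Fin n → ℝ} {l : Λ} {σ : ℝ} (hF : A.Full)
    (h : Drop S z y l σ A) (hl : l ∈ S) (hact : A.Act l z) : ¬ A.Act l y := by
  obtain ⟨v, hv⟩ := A.W_nonempty hF l z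
  have hv' : v ∈ A.W l y := by
    have := (h.edge.symm.closure hF).1 l hl
    rw [mid_comm] at this
    exact this.1 (by rw [h.W l hl]; exact hv)
  rw [A.act_iff hv']
  intro h0
  have := h.h_end hact hv
  rw [h0, mul_zero] at this
  exact lt_irrefl _ this

theorem Drop.not_act_mid {S : Finset Λ} {z y : Fin n → ℝ} {l : Λ} {σ : ℝ} (hF : A.Full)
    (h : Drop S z y l σ A) (hl : l ∈ S) : ¬ A.Act l (mid z y) := by
  obtain ⟨v, hv⟩ := A.W_nonempty hF l z
  have hv' : v ∈ A.W l (mid z y) := by rw [h.W l hl]; exact hv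
  rw [A.act_iff hv']
  intro h0
  have := h.self v hv
  rw [h0, mul_zero] at this
  exact lt_irrefl _ this

/-- The relation of the state at the end `y` of an edge to the state on the edge. -/
theorem Drop.end {S : Finset Λ} {z y : Fin n → ℝ} {l : Λ} {σ : ℝ} (hF : A.Full)
    (h : Drop S z y l σ A) : (∀ l' ∈ S, A.W l' z ⊆ A.W l' y ∧ (l' ≠ l → A.Act l' z → A.Act l' y) ∧
      (l' ≠ l → A.In l' z → A.In l' y ∨ A.Act l' y) ∧ (l' ≠ l → A.In l' y → A.In l' z)) := by
  intro l' hl'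
  have := (h.edge.symm.closure hF).1 l' hl'
  rw [mid_comm] at this
  refine ⟨by rw [← h.W l' hl']; exact this.1, fun hne hact => this.2.1 ?_,
    fun hne hin => this.2.2.1 ?_, fun hne hin => ?_⟩
  · exact (h.other l' hl' hne).1.2 hact
  · exact (h.other l' hl' hne).2.2 hin
  · exact (h.other l' hl' hne).2.1 (this.2.2.2 hin)

theorem exists_drop {S : Finset Λ} {z : Fin n → ℝ} (hF : A.Full) (hG : A.GP) (hBd : A.Bdd)
    (hz : A.Vtx S z) {l : Λ} (hl : l ∈ S) (hact : A.Act l z) {σ : ℝ} (hσ : σ ≠ 0) :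
    ∃ y, Drop S z y l σ A := by
  obtain ⟨y, h1, h2, h3, h4, h5⟩ := exists_edge hF hG hBd hz hl hact hσ
  exact ⟨y, h1, h2, h3, h4, h5⟩

/-- Pure vertices of a subfamily: bundled facts. -/
structure PV (e : ℕ) (G S : Finset Λ) (q : Fin n → ℝ) (A : Sys n ι Λ κ) : Prop where
  mem : q ∈ A.PureSet e G S
  vtx : A.Vtx (G ∪ S) q
  one : ∀ l, l ∉ A.Jg q → (A.W l q).card = 1
  two : ∀ l ∈ A.Jg q, (A.W l q).card = 2
  dis : ∀ l ∈ A.Jg q, ¬ A.Act l q
  bt : A.Bt q = ∅
  ig : A.Ig q ⊆ S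
  igc : (A.Ig q).card = e + 1
  jgc : (A.Jg q).card + (e + 1) = n
  sub : A.Dg q ⊆ G ∪ S
  gj : G ⊆ A.Jg q

theorem pv_of_mem (hF : A.Full) (hG : A.GP) {e : ℕ} {G S : Finset Λ} {q : Fin n → ℝ}
    (hq : q ∈ A.PureSet e G S) : PV e G S q A := by
  obtain ⟨h1, h2, h3, h4, h5⟩ := hq
  obtain ⟨f1, f2, f3⟩ := A.pure_facts hF h1 h2
  refine ⟨⟨h1, h2, h3, h4, h5⟩, (A.vtx_iff hF hG _ _).2 ⟨h1, h4⟩, fun l hl => A.W_card_one hF hl,
    fun l hl => (f2 l hl).1, fun l hl => (f2 l hl).2, f3, ?_, h3, ?_, h4, h5⟩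
  · intro l hl
    have h6 := h4 (mem_union_left _ hl)
    rcases mem_union.1 h6 with h | h
    · exact absurd (A.mem_Ig.1 hl) (f2 l (h5 h)).2
    · exact h
  · have hdis : Disjoint (A.Ig q) (A.Jg q) := by
      rw [disjoint_left]
      intro l hl hl'
      exact (f2 l hl').2 (A.mem_Ig.1 hl)
    have hc := card_union_of_disjoint hdis
    have hc' : (A.Dg q).card = (A.Ig q).card + (A.Jg q).card := hc
    omega

theorem PV.act_iff {e : ℕ} {G S : Finset Λ} {q : Fin n → ℝ} (_h : PV e G S q A) {l : Λ} :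
    l ∈ A.Ig q ↔ A.Act l q := A.mem_Ig

/-- The classification of the ends of the edges that leave a pure vertex. -/
theorem drop_class (hF : A.Full) (hG : A.GP) {e : ℕ} {G S : Finset Λ} {z y : Fin n → ℝ} {l : Λ}
    {σ : ℝ} (he : 1 ≤ e) (hz : PV e G S z A) (hl : A.Act l z) (h : Drop (G ∪ S) z y l σ A) :
    y ∈ A.DefSet G S ∨ y ∈ A.PureSet (e - 1) G S ∨
      (PV e G S y A ∧ ∃ p, p ∉ A.Dg z ∧ p ∈ S ∧ A.Ig y = insert p ((A.Ig z).erase l) ∧
        A.Jg y = A.Jg z) := by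
  have hlI : l ∈ A.Ig z := A.mem_Ig.2 hl
  have hlS : l ∈ S := hz.ig hlI
  have hlF : l ∈ G ∪ S := mem_union_right _ hlS
  have hlJ : l ∉ A.Jg z := fun h' => hz.dis l h' hl
  obtain ⟨hvy, hDy⟩ := (A.vtx_iff hF hG _ _).1 h.edge.vy
  have hend := h.end hF
  have hJ : A.Jg z ⊆ A.Jg y := by
    intro l' hl'
    rw [mem_Jg] at hl' ⊢
    exact hl'.trans (card_le_card (hend l' (hz.sub (mem_union_right _ (A.mem_Jg.2 hl')))).1)
  have hI : (A.Ig z).erase l ⊆ A.Ig y := by
    intro l' hl'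
    obtain ⟨hne, hl''⟩ := mem_erase.1 hl'
    rw [mem_Ig] at hl'' ⊢
    exact (hend l' (hz.sub (mem_union_left _ (A.mem_Ig.2 hl'')))).2.1 hne hl''
  have hGJ : G ⊆ A.Jg y := hz.gj.trans hJ
  have hdisz : Disjoint ((A.Ig z).erase l) (A.Jg z) := by
    rw [disjoint_left]
    intro l' h1 h2
    exact hz.dis l' h2 (A.mem_Ig.1 (mem_of_mem_erase h1))
  have hsub : (A.Ig z).erase l ∪ A.Jg z ⊆ A.Dg y := union_subset_union hI hJ
  have hc1 : ((A.Ig z).erase l ∪ A.Jg z).card + 1 = n := by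
    rw [card_union_of_disjoint hdisz, card_erase_of_mem hlI, hz.igc]
    have := hz.jgc
    omega
  have hc2 : (A.Dg y).card ≤ n := by
    have h1 : (A.Dg y).card ≤ ∑ l, A.cl l y := by
      calc (A.Dg y).card = ∑ l ∈ A.Dg y, 1 := card_eq_sum_ones _
        _ ≤ ∑ l ∈ A.Dg y, A.cl l y := sum_le_sum fun l hl => A.cl_pos.2 hl
        _ ≤ ∑ l, A.cl l y := sum_le_sum_of_subset (subset_univ _)
    have h2 := hvy.2
    rw [cnt_eq] at h2
    omega
  have hc3 := card_le_card hsub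
  rcases Nat.lt_or_ge (A.Dg y).card n with hlt | hge
  · left
    exact ⟨hvy, by omega, hDy, hGJ⟩
  · right
    have hDn : (A.Dg y).card = n := le_antisymm hc2 hge
    obtain ⟨p, hpD, hpn⟩ : ∃ p ∈ A.Dg y, p ∉ (A.Ig z).erase l ∪ A.Jg z := by
      by_contra hno
      push Not at hno
      have := card_le_card hno
      omega
    have hDe : A.Dg y = insert p ((A.Ig z).erase l ∪ A.Jg z) := by
      symm
      apply eq_of_subset_of_card_le
      · exact insert_subset hpD hsub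
      · rw [card_insert_of_notMem hpn]
        omega
    obtain ⟨f1, f2, f3⟩ := A.pure_facts hF hvy hDn
    rw [mem_union, not_or] at hpn
    by_cases hp : A.Act p y
    · right
      have hpl : p ≠ l := by
        rintro rfl
        exact h.not_act_end hF hlF hl hp
      have hIe : A.Ig y = insert p ((A.Ig z).erase l) := by
        apply Subset.antisymm
        · intro l' hl'
          have h1 : l' ∈ A.Dg y := mem_union_left _ hl'
          rw [hDe, mem_insert, mem_union] at h1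
          rcases h1 with h1 | h1 | h1
          · exact mem_insert.2 (Or.inl h1)
          · exact mem_insert_of_mem h1
          · exact absurd (A.mem_Ig.1 hl') (f2 l' (hJ h1)).2
        · exact insert_subset (A.mem_Ig.2 hp) hI
      have hJe : A.Jg y = A.Jg z := by
        apply Subset.antisymm
        · intro l' hl'
          have h1 : l' ∈ A.Dg y := mem_union_right _ hl'
          rw [hDe, mem_insert, mem_union] at h1
          rcases h1 with h1 | h1 | h1
          · subst h1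
            exact absurd hp (f2 _ hl').2
          · exact absurd (A.mem_Ig.1 (hI h1)) (f2 l' hl').2
          · exact h1
        · exact hJ
      have hpz : p ∉ A.Dg z := by
        rw [Dg, mem_union, not_or]
        exact ⟨fun h' => hpn.1 (mem_erase.2 ⟨hpl, h'⟩), hpn.2⟩
      have hmem : y ∈ A.PureSet e G S := by
        refine ⟨hvy, hDn, ?_, hDy, hGJ⟩
        rw [hIe, card_insert_of_notMem hpn.1, card_erase_of_mem hlI, hz.igc]
        omega
      have hpv := pv_of_mem hF hG hmem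
      exact ⟨hpv, p, hpz, hpv.ig (A.mem_Ig.2 hp), hIe, hJe⟩
    · left
      have hIe : A.Ig y = (A.Ig z).erase l := by
        apply Subset.antisymm
        · intro l' hl'
          have h1 : l' ∈ A.Dg y := mem_union_left _ hl'
          rw [hDe, mem_insert, mem_union] at h1
          rcases h1 with h1 | h1 | h1
          · subst h1
            exact absurd (A.mem_Ig.1 hl') hp
          · exact h1
          · exact absurd (A.mem_Ig.1 hl') (f2 l' (hJ h1)).2
        · exact hI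
      refine ⟨hvy, hDn, ?_, hDy, hGJ⟩
      rw [hIe, card_erase_of_mem hlI, hz.igc]
      omega

end Sys

end Pool.Agent.Helper39.Trans
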