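import Pool.Agent.Helper39.Trans.Edge

/-!
# Edges between vertices
-/

set_option linter.unusedSectionVars false

namespace Pool.Agent.Helper39.Trans

open Finset Classical Matrix

theorem lim_zero {α β : ℝ} (h : ∀ s : ℝ, 0 < s → s < 1 → 0 ≤ α + s * β) : 0 ≤ α := by
  by_contra hα
  have hα' : α < 0 := not_le.1 hα
  rcases le_or_gt β 0 with hβ | hβ
  · have := h (1 / 2) (by norm_num) (by norm_num)
    linarith
  · have h1 : 0 < min (1 / 2) (-α / (2 * β)) := lt_min (by norm_num) (by
      apply div_pos <;> linarith)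
    have h2 := h _ h1 (lt_of_le_of_lt (min_le_left _ _) (by norm_num))
    have h3 : min (1 / 2) (-α / (2 * β)) * β ≤ -α / (2 * β) * β :=
      mul_le_mul_of_nonneg_right (min_le_right _ _) hβ.le
    have h4 : -α / (2 * β) * β = -α / 2 := by field_simp
    linarith

namespace Sys

variable {n : ℕ} {ι Λ κ : Type} [Fintype ι] [Fintype Λ] [Fintype κ] (A : Sys n ι Λ κ)

theorem h_seg (v : ι) (x y : Fin n → ℝ) (s : ℝ) :
    A.h v (x + s • (y - x)) = A.h v x + s * (A.h v y - A.h v x) := by
  rw [h_add]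
  congr 2
  simp only [h, dotProduct_sub]
  ring

theorem bx_seg (k : κ) (x y : Fin n → ℝ) (s : ℝ) :
    A.bx k (x + s • (y - x)) = A.bx k x + s * (A.bx k y - A.bx k x) := by
  rw [bx_add]
  congr 2
  simp only [bx, dotProduct_sub]
  ring

theorem box_seg {x y : Fin n → ℝ} (hx : A.Box x) (hy : A.Box y) {s : ℝ} (h0 : 0 ≤ s)
    (h1 : s ≤ 1) : A.Box (x + s • (y - x)) := by
  intro k
  rw [bx_seg]
  have := hx k
  have := hy k
  nlinarith [mul_nonneg h0 (hy k), mul_nonneg (sub_nonneg.2 h1) (hx k)]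

variable {A}

theorem Same.symm {S : Finset Λ} {x y : Fin n → ℝ} (h : A.Same S x y) : A.Same S y x :=
  ⟨fun l hl => ⟨(h.1 l hl).1.symm, (h.1 l hl).2.1.symm, (h.1 l hl).2.2.symm⟩, h.2.symm⟩

theorem Same.trans {S : Finset Λ} {x y z : Fin n → ℝ} (h : A.Same S x y) (h' : A.Same S y z) :
    A.Same S x z :=
  ⟨fun l hl => ⟨(h.1 l hl).1.trans (h'.1 l hl).1, (h.1 l hl).2.1.trans (h'.1 l hl).2.1,
    (h.1 l hl).2.2.trans (h'.1 l hl).2.2⟩, h.2.trans h'.2⟩

theorem Same.refl {S : Finset Λ} (x : Fin n → ℝ) : A.Same S x x :=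
  ⟨fun _ _ => ⟨rfl, Iff.rfl, Iff.rfl⟩, rfl⟩

theorem Same.cnt {S : Finset Λ} {x y : Fin n → ℝ} (h : A.Same S x y) : A.cnt S x = A.cnt S y := by
  unfold Sys.cnt
  rw [h.2]
  congr 1
  congr 1
  · exact sum_congr rfl fun l hl => by rw [(h.1 l hl).1]
  · congr 1
    exact filter_congr fun l hl => (h.1 l hl).2.1

theorem Same.ker {S : Finset Λ} {x y : Fin n → ℝ} (h : A.Same S x y) {d : Fin n → ℝ}
    (hd : A.Ker S x d) : A.Ker S y d := by
  refine ⟨fun l hl v hv w hw => ?_, fun l hl hact v hv => ?_, fun k hk => ?_⟩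
  · rw [← (h.1 l hl).1] at hv hw
    exact hd.1 l hl v hv w hw
  · rw [← (h.1 l hl).1] at hv
    exact hd.2.1 l hl ((h.1 l hl).2.1.2 hact) v hv
  · rw [← h.2] at hk
    exact hd.2.2 k hk

theorem Same.convex {S : Finset Λ} {x y : Fin n → ℝ} (hF : A.Full) (hx : A.Box x) (hy : A.Box y)
    (h : A.Same S x y) {s : ℝ} (h0 : 0 ≤ s) (h1 : s ≤ 1) : A.Same S x (x + s • (y - x)) := by
  have hs1 : 0 ≤ 1 - s := by linarith
  have key : ∀ α β : ℝ, 0 < α → 0 < β → 0 < α + s * (β - α) := by
    intro α β ha hb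
    have e : α + s * (β - α) = (1 - s) * α + s * β := by ring
    rw [e]
    rcases h0.eq_or_lt with h | h
    · rw [← h]; simpa using ha
    · have := mul_pos h hb
      have := mul_nonneg hs1 ha.le
      linarith
  refine ⟨fun l hl => ?_, ?_⟩
  · obtain ⟨v, hv⟩ := A.W_nonempty hF l x
    have hv' : v ∈ A.W l y := by rw [← (h.1 l hl).1]; exact hv
    have hWe : ∀ u, u ∈ A.W l x ↔ u ∈ A.W l (x + s • (y - x)) := by
      intro u
      constructor
      · intro hu
        have hu' : u ∈ A.W l y := by rw [← (h.1 l hl).1]; exact hu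
        rw [mem_W]
        refine ⟨(A.mem_W.1 hu).1, fun w hw => ?_⟩
        rw [h_seg, h_seg]
        have a1 := (A.mem_W.1 hu).2 w hw
        have a2 := (A.mem_W.1 hu').2 w hw
        nlinarith [mul_nonneg h0 (sub_nonneg.2 a2), mul_nonneg hs1 (sub_nonneg.2 a1)]
      · intro hu
        by_contra hux
        have hug := (A.mem_W.1 hu).1
        have huy : u ∉ A.W l y := by rw [← (h.1 l hl).1]; exact hux
        have a1 := A.h_lt_of_notMem hv hug hux
        have a2 := A.h_lt_of_notMem hv' hug huy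
        have a3 := (A.mem_W.1 hu).2 v (A.mem_W.1 hv).1
        rw [h_seg, h_seg] at a3
        have := key _ _ (sub_pos.2 a1) (sub_pos.2 a2)
        linarith
    have hv'' := (hWe v).1 hv
    refine ⟨Finset.ext hWe, ?_, ?_⟩
    · rw [A.act_iff hv, A.act_iff hv'', h_seg]
      have i1 := (h.1 l hl).2.1
      have i2 := (h.1 l hl).2.2
      rw [A.act_iff hv, A.act_iff hv'] at i1
      rw [A.in_iff hv, A.in_iff hv'] at i2
      rcases lt_trichotomy (A.h v x) 0 with hlt | heq | hgt
      · have hy' : A.h v y < 0 := by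
          rcases lt_trichotomy (A.h v y) 0 with h' | h' | h'
          · exact h'
          · exact absurd (i1.2 h') hlt.ne
          · exact absurd (i2.2 h') hlt.not_gt
        have := key (-A.h v x) (-A.h v y) (by linarith) (by linarith)
        constructor
        · intro h'; linarith
        · intro h'; linarith
      · have := i1.1 heq
        rw [heq, this]
        simp
      · have := key _ _ hgt (i2.1 hgt)
        exact ⟨fun h' => absurd h' hgt.ne', fun h' => absurd h' this.ne'⟩
    · rw [A.in_iff hv, A.in_iff hv'', h_seg]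
      have i1 := (h.1 l hl).2.1
      have i2 := (h.1 l hl).2.2
      rw [A.act_iff hv, A.act_iff hv'] at i1
      rw [A.in_iff hv, A.in_iff hv'] at i2
      constructor
      · intro hgt
        exact key _ _ hgt (i2.1 hgt)
      · intro hgt
        by_contra hn
        have hn' : ¬ 0 < A.h v y := fun h' => hn (i2.2 h')
        nlinarith [mul_nonneg h0 (neg_nonneg.2 (not_lt.1 hn')),
          mul_nonneg hs1 (neg_nonneg.2 (not_lt.1 hn))]
  · ext k
    rw [mem_Bt, mem_Bt, bx_seg]
    have i1 : k ∈ A.Bt x ↔ k ∈ A.Bt y := by rw [h.2]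
    rw [mem_Bt, mem_Bt] at i1
    constructor
    · intro h'
      rw [h', i1.1 h']; ring
    · intro h'
      by_contra hne
      have hne' : A.bx k y ≠ 0 := fun h' => hne (i1.2 h')
      have := key _ _ (lt_of_le_of_ne (hx k) (Ne.symm hne)) (lt_of_le_of_ne (hy k) (Ne.symm hne'))
      linarith

variable (A)

/-- The midpoint. -/
noncomputable def mid (z y : Fin n → ℝ) : Fin n → ℝ := z + (1 / 2 : ℝ) • (y - z)

/-- The open segment between the vertices `z` and `y` of the subfamily `S` is an edge. -/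
structure Edge (S : Finset Λ) (z y : Fin n → ℝ) : Prop where
  vz : A.Vtx S z
  vy : A.Vtx S y
  cnt : A.cnt S (mid z y) + 1 = n
  same : ∀ s : ℝ, 0 < s → s < 1 → A.Same S (mid z y) (z + s • (y - z))

variable {A}

theorem mid_comm (z y : Fin n → ℝ) : mid z y = mid y z := by
  funext i
  simp only [mid, Pi.add_apply, Pi.smul_apply, Pi.sub_apply, smul_eq_mul]
  ring

theorem Edge.symm {S : Finset Λ} {z y : Fin n → ℝ} (h : A.Edge S z y) : A.Edge S y z := by
  refine ⟨h.vy, h.vz, by rw [mid_comm]; exact h.cnt, fun s h0 h1 => ?_⟩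
  have := h.same (1 - s) (by linarith) (by linarith)
  have e : y + s • (z - y) = z + (1 - s) • (y - z) := by
    funext i
    simp only [Pi.add_apply, Pi.smul_apply, Pi.sub_apply, smul_eq_mul]
    ring
  rw [e, mid_comm]
  exact this

theorem Edge.box {S : Finset Λ} {z y : Fin n → ℝ} (h : A.Edge S z y) : A.Box (mid z y) :=
  A.box_seg h.vz.1 h.vy.1 (by norm_num) (by norm_num)

/-- The state at the end of an edge. -/
theorem Edge.closure {S : Finset Λ} {z y : Fin n → ℝ} (hF : A.Full) (h : A.Edge S z y) :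
    (∀ l ∈ S, A.W l (mid z y) ⊆ A.W l z ∧ (A.Act l (mid z y) → A.Act l z) ∧
      (A.In l (mid z y) → A.In l z ∨ A.Act l z) ∧ (A.In l z → A.In l (mid z y))) ∧
    A.Bt (mid z y) ⊆ A.Bt z := by
  have hW : ∀ l ∈ S, A.W l (mid z y) ⊆ A.W l z := by
    intro l hl v hv
    rw [mem_W]
    refine ⟨(A.mem_W.1 hv).1, fun w hw => ?_⟩
    have := lim_zero (α := A.h w z - A.h v z)
      (β := (A.h w y - A.h w z) - (A.h v y - A.h v z)) fun s h0 h1 => by
        have hv' : v ∈ A.W l (z + s • (y - z)) := by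
          rw [← ((h.same s h0 h1).1 l hl).1]; exact hv
        have := (A.mem_W.1 hv').2 w hw
        rw [h_seg, h_seg] at this
        linarith
    linarith
  refine ⟨fun l hl => ⟨hW l hl, ?_, ?_, ?_⟩, ?_⟩
  · intro hact
    obtain ⟨v, hv⟩ := A.W_nonempty hF l (mid z y)
    rw [A.act_iff (hW l hl hv)]
    have hz : ∀ s : ℝ, 0 < s → s < 1 → A.h v z + s * (A.h v y - A.h v z) = 0 := by
      intro s h0 h1
      have hs := (h.same s h0 h1).1 l hl
      have hv' : v ∈ A.W l (z + s • (y - z)) := by rw [← hs.1]; exact hv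
      have := A.h_eq_zero_of_act (hs.2.1.1 hact) hv'
      rwa [h_seg] at this
    have h1 := hz (1 / 2) (by norm_num) (by norm_num)
    have h2 := hz (1 / 4) (by norm_num) (by norm_num)
    linarith
  · intro hin
    obtain ⟨v, hv⟩ := A.W_nonempty hF l (mid z y)
    rw [A.act_iff (hW l hl hv), A.in_iff (hW l hl hv)]
    have h0 : 0 ≤ A.h v z := lim_zero (β := A.h v y - A.h v z) fun s h0 h1 => by
      have hs := (h.same s h0 h1).1 l hl
      have hv' : v ∈ A.W l (z + s • (y - z)) := by rw [← hs.1]; exact hv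
      have := (A.in_iff hv').1 (hs.2.2.1 hin)
      rw [h_seg] at this
      exact this.le
    rcases h0.lt_or_eq with h | h
    · exact Or.inl h
    · exact Or.inr h.symm
  · intro hin
    by_contra hn
    obtain ⟨v, hv⟩ := A.W_nonempty hF l (mid z y)
    have hpos := (A.in_iff (hW l hl hv)).1 hin
    have h0 : 0 ≤ -A.h v z := lim_zero (β := -(A.h v y - A.h v z)) fun s h0 h1 => by
      have hs := (h.same s h0 h1).1 l hl
      have hv' : v ∈ A.W l (z + s • (y - z)) := by rw [← hs.1]; exact hv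
      have : ¬ 0 < A.h v (z + s • (y - z)) := by
        rw [← A.in_iff hv']
        exact fun h => hn (hs.2.2.2 h)
      rw [h_seg] at this
      linarith
    linarith
  · intro k hk
    rw [mem_Bt]
    have hz : ∀ s : ℝ, 0 < s → s < 1 → A.bx k z + s * (A.bx k y - A.bx k z) = 0 := by
      intro s h0 h1
      have hk' : k ∈ A.Bt (z + s • (y - z)) := by rw [← (h.same s h0 h1).2]; exact hk
      rw [mem_Bt, bx_seg] at hk'
      exact hk'
    have h1 := hz (1 / 2) (by norm_num) (by norm_num)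
    have h2 := hz (1 / 4) (by norm_num) (by norm_num)
    linarith

/-- The direction of an edge. -/
theorem Edge.ker {S : Finset Λ} {z y : Fin n → ℝ} (h : A.Edge S z y) :
    A.Ker S (mid z y) (z - y) := by
  have hm : mid z y = z + (1 / 2 : ℝ) • (y - z) := rfl
  have hs := h.same (1 / 4) (by norm_num) (by norm_num)
  have e : ∀ v, A.a v ⬝ᵥ (z - y) = A.h v z - A.h v y := by
    intro v
    simp only [Sys.h, dotProduct_sub]
    ring
  have eb : ∀ k, A.ba k ⬝ᵥ (z - y) = A.bx k z - A.bx k y := by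
    intro k
    simp only [Sys.bx, dotProduct_sub]
    ring
  refine ⟨fun l hl v hv w hw => ?_, fun l hl hact v hv => ?_, fun k hk => ?_⟩
  · have hv' : v ∈ A.W l (z + (1 / 4 : ℝ) • (y - z)) := by rw [← (hs.1 l hl).1]; exact hv
    have hw' : w ∈ A.W l (z + (1 / 4 : ℝ) • (y - z)) := by rw [← (hs.1 l hl).1]; exact hw
    have h1 := A.h_eq_of_mem_W hv hw
    have h2 := A.h_eq_of_mem_W hv' hw'
    rw [hm, h_seg, h_seg] at h1
    rw [h_seg, h_seg] at h2
    rw [e, e]
    linarith
  · have hv' : v ∈ A.W l (z + (1 / 4 : ℝ) • (y - z)) := by rw [← (hs.1 l hl).1]; exact hv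
    have h1 := A.h_eq_zero_of_act hact hv
    have h2 := A.h_eq_zero_of_act ((hs.1 l hl).2.1.1 hact) hv'
    rw [hm, h_seg] at h1
    rw [h_seg] at h2
    rw [e]
    linarith
  · have hk' : k ∈ A.Bt (z + (1 / 4 : ℝ) • (y - z)) := by rw [← hs.2]; exact hk
    rw [hm, mem_Bt, bx_seg] at hk
    rw [mem_Bt, bx_seg] at hk'
    rw [eb]
    linarith

theorem Edge.ne {S : Finset Λ} {z y : Fin n → ℝ} (h : A.Edge S z y) : z ≠ y := by
  rintro rfl
  have h1 := h.cnt
  have h2 := h.vz.2
  have e : mid z z = z := by simp [mid]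
  rw [e] at h1
  omega

/-- An edge is determined by one end and the state. -/
theorem Edge.unique {S : Finset Λ} {z z' y : Fin n → ℝ} (hF : A.Full) (hG : A.GP)
    (h : A.Edge S z y) (h' : A.Edge S z' y) (hs : A.Same S (mid z y) (mid z' y)) : z = z' := by
  obtain ⟨d0, hd00, _, hall⟩ := (linFacts n κ ι Λ A hF hG S _ h.box).2.2.2.2 h.cnt
  obtain ⟨c1, hc1⟩ := hall _ h.ker
  obtain ⟨c2, hc2⟩ := hall _ (hs.symm.ker h'.ker)
  have hc10 : c1 ≠ 0 := by
    rintro rfl
    rw [zero_smul] at hc1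
    exact h.ne (sub_eq_zero.1 hc1)
  have hc20 : c2 ≠ 0 := by
    rintro rfl
    rw [zero_smul] at hc2
    exact h'.ne (sub_eq_zero.1 hc2)
  have hrel : ∀ i, c1 * (z' i - y i) = c2 * (z i - y i) := by
    intro i
    have e1 := congrFun hc1 i
    have e2 := congrFun hc2 i
    simp only [Pi.sub_apply, Pi.smul_apply, smul_eq_mul] at e1 e2
    rw [e1, e2]; ring
  rcases lt_trichotomy (c2 / c1) 0 with hneg | hzero | hpos
  · -- `y` lies between the two midpoints
    exfalso
    set c := c2 / c1 with hc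
    have hcr : ∀ i, z' i - y i = c * (z i - y i) := by
      intro i
      have := hrel i
      rw [hc, div_mul_eq_mul_div, eq_div_iff hc10]
      linarith
    have hy : y = mid z y + (1 / (1 - c)) • (mid z' y - mid z y) := by
      funext i
      have hne : 1 - c ≠ 0 := by linarith
      simp only [mid, Pi.add_apply, Pi.smul_apply, Pi.sub_apply, smul_eq_mul]
      have := hcr i
      have e : z' i = y i + c * (z i - y i) := by linarith
      rw [e]
      field_simp
      ring
    have hcon := Same.convex hF h.box h'.box hs (s := 1 / (1 - c))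
      (by apply div_nonneg <;> linarith) (by rw [div_le_one (by linarith)]; linarith)
    rw [← hy] at hcon
    have h1 := hcon.cnt
    have h2 := h.cnt
    have h3 := h.vy.2
    omega
  · exact absurd hzero (div_ne_zero hc20 hc10)
  · set c := c2 / c1 with hc
    have hcr : ∀ i, z' i - y i = c * (z i - y i) := by
      intro i
      have := hrel i
      rw [hc, div_mul_eq_mul_div, eq_div_iff hc10]
      linarith
    rcases lt_trichotomy c 1 with hlt | heq | hgt
    · exfalso
      have hz' : z' = z + (1 - c) • (y - z) := by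
        funext i
        simp only [Pi.add_apply, Pi.smul_apply, Pi.sub_apply, smul_eq_mul]
        linarith [hcr i]
      have h1 := (h.same (1 - c) (by linarith) (by linarith)).cnt
      rw [← hz'] at h1
      have h2 := h.cnt
      have h3 := h'.vz.2
      omega
    · funext i
      have := hcr i
      rw [heq] at this
      linarith
    · exfalso
      have hz : z = z' + (1 - 1 / c) • (y - z') := by
        funext i
        have hc0 : c ≠ 0 := by linarith
        simp only [Pi.add_apply, Pi.smul_apply, Pi.sub_apply, smul_eq_mul]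
        have e : z' i = y i + c * (z i - y i) := by linarith [hcr i]
        rw [e]
        field_simp
        ring
      have hc1' : 1 / c < 1 := by rw [div_lt_one (by linarith)]; exact hgt
      have hc0' : 0 < 1 / c := by positivity
      have h1 := (h'.same (1 - 1 / c) (by linarith) (by linarith)).cnt
      rw [← hz] at h1
      have h2 := h'.cnt
      have h3 := h.vz.2
      omega

/-- Leaving a vertex by dropping an active group. -/
theorem exists_edge {S : Finset Λ} {z : Fin n → ℝ} (hF : A.Full) (hG : A.GP) (hBd : A.Bdd)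
    (hz : A.Vtx S z) {l0 : Λ} (hl0 : l0 ∈ S) (hact0 : A.Act l0 z) {σ : ℝ} (hσ : σ ≠ 0) :
    ∃ y, A.Edge S z y ∧ (∀ l ∈ S, A.W l (mid z y) = A.W l z) ∧ A.Bt (mid z y) = A.Bt z ∧
      (∀ l ∈ S, l ≠ l0 → (A.Act l (mid z y) ↔ A.Act l z) ∧ (A.In l (mid z y) ↔ A.In l z)) ∧
      (∀ v ∈ A.W l0 z, 0 < σ * A.h v (mid z y)) := by
  obtain ⟨d, hd1, hd2, hd3⟩ := (linFacts n κ ι Λ A hF hG S z hz.1).2.2.2.1
    (fun v => if A.grp v = l0 then σ else 0) (fun _ => 0)
  have hdW : ∀ l ∈ S, ∀ v ∈ A.W l z, ∀ w ∈ A.W l z, A.a v ⬝ᵥ d = A.a w ⬝ᵥ d := by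
    intro l hl v hv w hw
    have := hd1 l hl v hv w hw
    rw [(A.mem_W.1 hv).1, (A.mem_W.1 hw).1] at this
    linarith
  have hdl0 : ∀ v ∈ A.W l0 z, A.a v ⬝ᵥ d = σ := by
    intro v hv
    have := hd2 l0 hl0 hact0 v hv
    rw [(A.mem_W.1 hv).1, if_pos rfl] at this
    exact this
  have hdl : ∀ l ∈ S, l ≠ l0 → A.Act l z → ∀ v ∈ A.W l z, A.a v ⬝ᵥ d = 0 := by
    intro l hl hne hact v hv
    have := hd2 l hl hact v hv
    rw [(A.mem_W.1 hv).1, if_neg hne] at this
    exact this
  have hd0 : d ≠ 0 := by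
    rintro rfl
    obtain ⟨v, hv⟩ := A.W_nonempty hF l0 z
    have := hdl0 v hv
    rw [dotProduct_zero] at this
    exact hσ this.symm
  obtain ⟨s0, hs0, hk⟩ := keep_sign _ (A.evs_finite S z d) (A.evs_ne hz.1 d)
  have hst : ∀ s, 0 ≤ s → s < s0 → _ := fun s h0 h1 =>
    A.state_of_kept (S := S) (d := d) hF hz.1 hdW hd3 (hk s h0 h1)
  -- the state near `z`
  have hst2 : ∀ s, 0 < s → s < s0 → A.Box (z + s • d) ∧ (∀ l ∈ S, A.W l (z + s • d) = A.W l z) ∧
      A.Bt (z + s • d) = A.Bt z ∧
      (∀ l ∈ S, l ≠ l0 → (A.Act l (z + s • d) ↔ A.Act l z) ∧ (A.In l (z + s • d) ↔ A.In l z)) ∧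
      (∀ v ∈ A.W l0 z, A.h v (z + s • d) = s * σ) := by
    intro s h0 h1
    obtain ⟨g1, g2, g3, g4, g5⟩ := hst s h0.le h1
    refine ⟨g3, g1, g2, fun l hl hne => ?_, fun v hv => ?_⟩
    · by_cases hact : A.Act l z
      · obtain ⟨v, hv⟩ := A.W_nonempty hF l z
        have hv' : v ∈ A.W l (z + s • d) := by rw [g1 l hl]; exact hv
        have hh := g5 l hl hact v hv
        rw [hdl l hl hne hact v hv, mul_zero] at hh
        rw [A.act_iff hv', A.in_iff hv', A.in_iff hv, hh, A.h_eq_zero_of_act hact hv]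
        simp [hact]
      · have := g4 l hl hact
        exact ⟨⟨fun h => absurd h this.1, fun h => absurd h hact⟩, this.2⟩
    · rw [g5 l0 hl0 hact0 v hv, hdl0 v hv]
  -- the starting point on the edge
  set x0 := z + (s0 / 2) • d with hx0
  obtain ⟨b0, b1, b2, b3, b4⟩ := hst2 (s0 / 2) (by linarith) (by linarith)
  rw [← hx0] at b0 b1 b2 b3 b4
  have hnact : ¬ A.Act l0 x0 := by
    obtain ⟨v, hv⟩ := A.W_nonempty hF l0 z
    have hv' : v ∈ A.W l0 x0 := by rw [b1 l0 hl0]; exact hv
    rw [A.act_iff hv', b4 v hv]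
    exact mul_ne_zero (by linarith) hσ
  have hcnt : A.cnt S x0 + 1 = n := by
    refine Eq.trans ?_ hz.2
    unfold Sys.cnt
    rw [b2, sum_congr rfl fun l hl => by rw [b1 l hl]]
    have hfe : (S.filter fun l => A.Act l x0) = (S.filter fun l => A.Act l z).erase l0 := by
      ext l
      simp only [mem_filter, mem_erase]
      constructor
      · rintro ⟨h1, h2⟩
        have hne : l ≠ l0 := by
          rintro rfl
          exact hnact h2
        exact ⟨hne, h1, (b3 l h1 hne).1.1 h2⟩
      · rintro ⟨h1, h2, h3⟩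
        exact ⟨h2, (b3 l h2 h1).1.2 h3⟩
    have hmem : l0 ∈ S.filter fun l => A.Act l z := mem_filter.2 ⟨hl0, hact0⟩
    have hpos : 0 < (S.filter fun l => A.Act l z).card := card_pos.2 ⟨l0, hmem⟩
    rw [hfe, card_erase_of_mem hmem]
    omega
  have hker : A.Ker S x0 d := by
    refine ⟨fun l hl v hv w hw => ?_, fun l hl hact v hv => ?_, fun k hk => ?_⟩
    · rw [b1 l hl] at hv hw
      exact hdW l hl v hv w hw
    · have hne : l ≠ l0 := by
        rintro rfl
        exact hnact hact
      rw [b1 l hl] at hv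
      exact hdl l hl hne ((b3 l hl hne).1.1 hact) v hv
    · rw [b2] at hk
      exact hd3 k hk
  obtain ⟨s2, hs2, hv2, hsame2, _, _⟩ := edgeExit n κ ι Λ A hF hG hBd S x0 d b0 hcnt hd0 hker
  have hL : 0 < s0 / 2 + s2 := by linarith
  have hy : x0 + s2 • d = z + (s0 / 2 + s2) • d := by
    rw [hx0, add_smul, add_assoc]
  have hall : ∀ r, 0 < r → r < s0 / 2 + s2 → A.Same S x0 (z + r • d) := by
    intro r h0 h1
    rcases lt_or_ge r (s0 / 2) with hr | hr
    · obtain ⟨c0, c1, c2, c3, c4⟩ := hst2 r h0 (by linarith)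
      refine ⟨fun l hl => ⟨(b1 l hl).trans (c1 l hl).symm, ?_, ?_⟩, b2.trans c2.symm⟩
      · by_cases hne : l = l0
        · subst hne
          obtain ⟨v, hv⟩ := A.W_nonempty hF l z
          have hv' : v ∈ A.W l (z + r • d) := by rw [c1 l hl]; exact hv
          have hv0 : v ∈ A.W l x0 := by rw [b1 l hl]; exact hv
          rw [A.act_iff hv', A.act_iff hv0, c4 v hv, b4 v hv]
          have := mul_ne_zero h0.ne' hσ
          have := mul_ne_zero (by linarith : s0 / 2 ≠ 0) hσ
          simp_all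
        · exact (b3 l hl hne).1.trans (c3 l hl hne).1.symm
      · by_cases hne : l = l0
        · subst hne
          obtain ⟨v, hv⟩ := A.W_nonempty hF l z
          have hv' : v ∈ A.W l (z + r • d) := by rw [c1 l hl]; exact hv
          have hv0 : v ∈ A.W l x0 := by rw [b1 l hl]; exact hv
          rw [A.in_iff hv', A.in_iff hv0, c4 v hv, b4 v hv, mul_pos_iff_of_pos_left h0,
            mul_pos_iff_of_pos_left (by linarith)]
        · exact (b3 l hl hne).2.trans (c3 l hl hne).2.symm
    · have := hsame2 (r - s0 / 2) (by linarith) (by linarith)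
      have e : x0 + (r - s0 / 2) • d = z + r • d := by
        rw [hx0, add_assoc, ← add_smul]
        congr 2
        ring
      rwa [e] at this
  have hseg : ∀ s : ℝ, z + s • (z + (s0 / 2 + s2) • d - z) = z + (s * (s0 / 2 + s2)) • d := by
    intro s
    rw [add_sub_cancel_left, smul_smul]
  have hmidS : A.Same S x0 (mid z (z + (s0 / 2 + s2) • d)) := by
    rw [mid, hseg]
    exact hall _ (by positivity) (by nlinarith)
  refine ⟨z + (s0 / 2 + s2) • d, ⟨hz, by rw [← hy]; exact hv2, ?_, ?_⟩, ?_, ?_, ?_, ?_⟩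
  · rw [← hmidS.cnt]; exact hcnt
  · intro s h0 h1
    rw [hseg]
    exact hmidS.symm.trans (hall _ (by positivity) (by nlinarith))
  · intro l hl
    rw [← (hmidS.1 l hl).1, b1 l hl]
  · rw [← hmidS.2, b2]
  · intro l hl hne
    exact ⟨(hmidS.1 l hl).2.1.symm.trans (b3 l hl hne).1,
      (hmidS.1 l hl).2.2.symm.trans (b3 l hl hne).2⟩
  · intro v hv
    have h1 : A.h v (mid z (z + (s0 / 2 + s2) • d)) = 1 / 2 * (s0 / 2 + s2) * σ := by
      rw [mid, hseg, h_add, A.h_eq_zero_of_act hact0 hv, hdl0 v hv]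
      ring
    rw [h1]
    have : 0 < σ * σ := mul_self_pos.2 hσ
    have h3 : σ * (1 / 2 * (s0 / 2 + s2) * σ) = 1 / 2 * (s0 / 2 + s2) * (σ * σ) := by ring
    rw [h3]
    positivity

end Sys

end Pool.Agent.Helper39.Trans
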